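import Mathlib

/-!
# Undecidability of embeddability into power semigroups of groups (MP_01f640_al): definitions

Plan:
* Layer 1: a stack machine with recursively inseparable halting behaviour (`exists_machine`), turned
  into a finite semigroup system `B : L → L → L → Prop` (`B r s s'` means `r = s s'`).
* Layer 2: semigroup systems are turned into group systems (lists of triples `x * y = z`) by
  commutators.
* Layer 3: group systems are turned into finite semigroups embeddable into `P(G)`.
-/

namespace Pool.Agent.Helper91.SG

universe u v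

/-! ### Group systems -/

/-- `f` solves the system `R` of equations `x * y = z` in the group `G` (the variables are natural
numbers, the variable `0` stands for the identity). -/
def IsSol (R : List (ℕ × ℕ × ℕ)) {G : Type*} [Group G] (f : ℕ → G) : Prop :=
  f 0 = 1 ∧ ∀ t ∈ R, f t.1 * f t.2.1 = f t.2.2

/-! ### Semigroup systems -/

/-- One rewriting step: replace a letter `r` of a word by `s s'`, where `B r s s'`. -/
inductive Rw {L : Type*} (B : L → L → L → Prop) : List L → List L → Prop
  | mk (u v : List L) (r s s' : L) (h : B r s s') : Rw B (u ++ r :: v) (u ++ s :: s' :: v)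

/-! ### Stack machines -/

/-- The commands of a stack machine with states `Q`, stacks `K`, stack symbols `A`. -/
inductive Cmd (Q K A : Type) : Type
  | halt : Cmd Q K A
  | jump (q : Q) : Cmd Q K A
  | push (k : K) (a : A) (q : Q) : Cmd Q K A
  | pop (k : K) (f : A → Q) : Cmd Q K A

/-- One step of a stack machine. Popping an empty stack is impossible (the machine stops). -/
def step {Q K A : Type} [DecidableEq K] (δ : Q → Cmd Q K A) :
    Q × (K → List A) → Option (Q × (K → List A)) := fun c =>
  match δ c.1 with
  | .halt => none
  | .jump q => some (q, c.2)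
  | .push k a q => some (q, Function.update c.2 k (a :: c.2 k))
  | .pop k f => match c.2 k with
    | [] => none
    | a :: l => some (f a, Function.update c.2 k l)

/-! ### Equations in semigroups -/

/-- The equations imposed on elements of a semigroup by the group system `R` in the variables
`0, …, N - 1` with target variable `tgt`. -/
structure Eqs {S : Type*} [Mul S] (R : List (ℕ × ℕ × ℕ)) (N tgt : ℕ) (e0 f0 e1 f1 : S)
    (a b : ℕ → S) : Prop where
  he0 : e0 * e0 = e0
  hf0 : f0 * f0 = f0
  he1 : e1 * e1 = e1
  hf1 : f1 * f1 = f1
  hab : ∀ x < N, a x * e0 * f0 * b x = e1 * f1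
  hba : ∀ x < N, b x * f1 * e1 * a x = f0 * e0
  hR : ∀ t ∈ R, a t.2.2 * e0 * f0 * b t.2.1 = a t.1 * e0 * f0 * b 0
  hne : a tgt * e0 * f0 ≠ a 0 * e0 * f0

/-! ### Multiplication tables -/

/-- The entry in row `i` and column `j` of the table `T` (a list of rows). -/
def entry (T : List (List ℕ)) (i j : ℕ) : ℕ := (T.getD i []).getD j 0

/-- The value of a nonempty word in the generators `0, 1, 2, …`, evaluated in the table `T` with
the generator `g` assigned to the element `A.getD g 0`. -/
def ev (T : List (List ℕ)) (A : List ℕ) : List ℕ → ℕ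
  | [] => 0
  | g :: w => w.foldl (fun acc h => entry T acc (A.getD h 0)) (A.getD g 0)

/-! ### From stack machines to semigroup systems -/

/-- The letters of the semigroup system of a stack machine. -/
inductive Letter (Q K A : Type) : Type
  /-- a state -/
  | st (q : Q) : Letter Q K A
  /-- a stack letter `some (k, a)`, or the clock letter `none` -/
  | lt (x : Option (K × A)) : Letter Q K A
  /-- `pu q = q' (k, a)` if `q` has the command `push k a q'` -/
  | pu (q : Q) : Letter Q K A
  /-- `pp q k a = q (k, a)` if `q` has a pop command for the stack `k` -/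
  | pp (q : Q) (k : K) (a : A) : Letter Q K A
  /-- the product of two letters of different stacks -/
  | cm (x y : Option (K × A)) : Letter Q K A

/-- The defining relations `r = s s'` of the semigroup system of the machine `δ`. Each step of the
machine adds a clock letter. -/
inductive Rule {Q K A : Type} (δ : Q → Cmd Q K A) :
    Letter Q K A → Letter Q K A → Letter Q K A → Prop
  | jump (q q' : Q) (h : δ q = .jump q') : Rule δ (.st q) (.st q') (.lt none)
  | push1 (q : Q) (k : K) (a : A) (q' : Q) (h : δ q = .push k a q') :
      Rule δ (.pu q) (.st q') (.lt (some (k, a)))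
  | push2 (q : Q) (k : K) (a : A) (q' : Q) (h : δ q = .push k a q') :
      Rule δ (.st q) (.pu q) (.lt none)
  | pop1 (q : Q) (k : K) (f : A → Q) (a : A) (h : δ q = .pop k f) :
      Rule δ (.pp q k a) (.st q) (.lt (some (k, a)))
  | pop2 (q : Q) (k : K) (f : A → Q) (a : A) (h : δ q = .pop k f) :
      Rule δ (.pp q k a) (.st (f a)) (.lt none)
  | comm1 (x y : Option (K × A)) (h : x.map Prod.fst ≠ y.map Prod.fst) :
      Rule δ (.cm x y) (.lt x) (.lt y)
  | comm2 (x y : Option (K × A)) (h : x.map Prod.fst ≠ y.map Prod.fst) :
      Rule δ (.cm x y) (.lt y) (.lt x)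

/-- The word of a tuple of stacks (the stacks listed in `ks`). -/
def word {Q K A : Type} (ks : List K) (z : K → List A) : List (Letter Q K A) :=
  ks.flatMap fun k => (z k).map fun a => Letter.lt (some (k, a))

/-! ### From semigroup systems to groups -/

/-- The variables of the group system of a semigroup system with letters `L`. -/
inductive GVar (L : Type) : Type
  | one : GVar L
  | Y (j : Fin 4) : GVar L
  | Y1 (j : Fin 4) (s : L) : GVar L
  | X (i j : Fin 4) (s : L) : GVar L
  | X2 (i j : Fin 4) (s s' : L) : GVar L

/-- The commutator relations: `CRel B z g h k` stands for `[g, h] = k`. (Think of `X i j s` as the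
elementary matrix `1 + E i j s`, and of `Y j` as `1 + E * j 1` for an additional index `*`.) -/
inductive CRel {L : Type} (B : L → L → L → Prop) (z : L) : GVar L → GVar L → GVar L → Prop
  | st0 (i j k l : Fin 4) (s s' : L) (h1 : i ≠ j) (h2 : k ≠ l) (h3 : j ≠ k) (h4 : i ≠ l) :
      CRel B z (.X i j s) (.X k l s') .one
  | st1 (i j k : Fin 4) (s s' : L) (h1 : i ≠ j) (h2 : j ≠ k) (h3 : i ≠ k) :
      CRel B z (.X i j s) (.X j k s') (.X2 i k s s')
  | rule (i j k : Fin 4) (r s s' : L) (h : B r s s') (h1 : i ≠ j) (h2 : j ≠ k) (h3 : i ≠ k) :
      CRel B z (.X i j s) (.X j k s') (.X i k r)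
  | zero (i j : Fin 4) (h : i ≠ j) : CRel B z .one .one (.X i j z)
  | y0 (j i k : Fin 4) (s : L) (h1 : i ≠ k) (h2 : i ≠ j) : CRel B z (.Y j) (.X i k s) .one
  | y1 (j k : Fin 4) (s : L) (h : j ≠ k) : CRel B z (.Y j) (.X j k s) (.Y1 k s)

/-- `F` solves the commutator relations in the group `G` (`[g, h] = k` is written as
`g h = k (h g)`). -/
def GSol {L : Type} (B : L → L → L → Prop) (z : L) {G : Type*} [Group G] (F : GVar L → G) :
    Prop :=
  F .one = 1 ∧ ∀ g h k, CRel B z g h k → F g * F h = F k * (F h * F g)

/-- The commutator of two group elements. -/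
def cmt {G : Type*} [Group G] (g h : G) : G := g * h * g⁻¹ * h⁻¹

/-- The iterated commutator `[…[[acc, X i i' s₁], X i' i s₂], …]` along the word `s₁ s₂ …`, with
`{i, i'} = {0, 1}`; the index is `0` if `p = false` and `1` if `p = true`. -/
def chain {L : Type} {G : Type*} [Group G] (F : GVar L → G) : Bool → G → List L → G
  | _, acc, [] => acc
  | false, acc, s :: w => chain F true (cmt acc (F (.X 0 1 s))) w
  | true, acc, s :: w => chain F false (cmt acc (F (.X 1 0 s))) w

end Pool.Agent.Helper91.SG
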