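import Pool.Agent.Helper91.SG.M10

namespace Pool.Agent.Helper91.SG.Final

open Pointwise

universe u

/-- `S` embeds into the power semigroup `P(G)` (all subsets of `G`, the empty set included,
with the product `A * B = {a * b : a ∈ A, b ∈ B}`). -/
def EmbedsInPower (S : Type*) [Semigroup S] (G : Type*) [Group G] : Prop :=
  ∃ φ : S → Set G, Function.Injective φ ∧ ∀ s t : S, φ (s * t) = φ s * φ t

/-- The property of Q1: there is a finite group `G` such that `S` embeds into `P(G)`. -/
def EmbedsFinite (S : Type) [Semigroup S] : Prop :=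
  ∃ (G : Type u) (_ : Group G), Finite G ∧ EmbedsInPower S G

/-- The property of Q2: there is a periodic group `G` such that `S` embeds into `P(G)`. -/
def EmbedsPeriodic (S : Type) [Semigroup S] : Prop :=
  ∃ (G : Type u) (_ : Group G), (∀ g : G, IsOfFinOrder g) ∧ EmbedsInPower S G

/-! ### Multiplication tables -/

/-- The entry in row `i` and column `j` of the table `T` (a list of rows). -/
def entry (T : List (List ℕ)) (i j : ℕ) : ℕ := (T.getD i []).getD j 0

/-- `T` is the multiplication table of a semigroup on `{0, …, n - 1}`: it consists of `n` rows of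
length `n`, all entries are less than `n`, and the multiplication `i * j = entry T i j` is
associative. -/
def IsSemigroupTable (T : List (List ℕ)) : Prop :=
  (∀ r ∈ T, r.length = T.length) ∧
  (∀ i < T.length, ∀ j < T.length, entry T i j < T.length) ∧
  (∀ i < T.length, ∀ j < T.length, ∀ k < T.length,
    entry T (entry T i j) k = entry T i (entry T j k))

/-- The elements `0, …, n - 1` of the semigroup of a table with `n` rows. -/
@[ext] structure Elt (T : List (List ℕ)) : Type where
  /-- the underlying number -/
  val : ℕ
  lt : val < T.length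

/-- The semigroup of a table. -/
@[instance_reducible] def tableSemigroup (T : List (List ℕ)) (h : IsSemigroupTable T) :
    Semigroup (Elt T) where
  mul i j := ⟨entry T i.val j.val, h.2.1 i.val i.lt j.val j.lt⟩
  mul_assoc i j k := Elt.ext (h.2.2 i.val i.lt j.val j.lt k.val k.lt)

/-! ### The proof -/

lemma embeds_iff (T : List (List ℕ)) (h : IsSemigroupTable T) (G : Type*) [Group G] :
    SG.TableEmbeds T G ↔ @EmbedsInPower (Elt T) (tableSemigroup T h) G _ := by
  let _ := tableSemigroup T h
  constructor
  · rintro ⟨φ, h1, h2⟩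
    refine ⟨fun i => φ i.val, ?_, ?_⟩
    · intro i j hij
      exact Elt.ext (h1 i.lt j.lt hij)
    · intro i j
      exact h2 i.val i.lt j.val j.lt
  · rintro ⟨φ, h1, h2⟩
    refine ⟨fun i => if hi : i < T.length then φ ⟨i, hi⟩ else ∅, ?_, ?_⟩
    · intro i hi j hj hij
      simp only [Set.mem_ofPred_eq] at hi hj
      simp only [dif_pos hi, dif_pos hj] at hij
      exact congrArg Elt.val (h1 hij)
    · intro i hi j hj
      have h3 : SG.entry T i j < T.length := h.2.1 i hi j hj
      simp only [dif_pos hi, dif_pos hj, dif_pos h3]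
      exact h2 ⟨i, hi⟩ ⟨j, hj⟩

/-- No decidable set `P` of tables contains all the tables of semigroups that embed into `P(G)` for
some finite group `G`, but no table of a semigroup that does not embed into `P(G)` for any periodic
group `G`. -/
theorem inseparable (P : List (List ℕ) → Prop) (hP : ComputablePred P)
    (h1 : ∀ (T : List (List ℕ)) (h : IsSemigroupTable T),
      @EmbedsFinite.{u} (Elt T) (tableSemigroup T h) → P T)
    (h2 : ∀ (T : List (List ℕ)) (h : IsSemigroupTable T),
      P T → @EmbedsPeriodic.{u} (Elt T) (tableSemigroup T h)) : False := by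
  refine SG.inseparable.{u} P hP ?_ ?_
  · rintro T hT ⟨G, iG, iF, h⟩
    exact h1 T hT ⟨G, iG, iF, (embeds_iff T hT G).1 h⟩
  · intro T hT hPT
    obtain ⟨G, iG, hG, h⟩ := h2 T hT hPT
    exact ⟨G, iG, hG, (embeds_iff T hT G).2 h⟩

theorem finite_periodic (T : List (List ℕ)) (h : IsSemigroupTable T)
    (h1 : @EmbedsFinite.{u} (Elt T) (tableSemigroup T h)) :
    @EmbedsPeriodic.{u} (Elt T) (tableSemigroup T h) := by
  obtain ⟨G, iG, iF, h⟩ := h1
  exact ⟨G, iG, fun g => isOfFinOrder_of_finite g, h⟩

end Pool.Agent.Helper91.SG.Final
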