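import Pool.Agent.Helper91.SG.Defs

namespace Pool.Agent.Helper91.SG

open Turing Turing.PartrecToTM2

/-- The initial stacks (`none` is the bottom marker; `n` is given as `2 ^ n - 1` in binary). -/
def inpStk (n : ℕ) : K' → List (Option Γ')
  | .main => List.replicate n (some Γ'.bit1) ++ [some Γ'.cons, none]
  | .rev => [none]
  | .aux => [none]
  | .stack => [none]

namespace m1

open Relation

/-! ### restriction of a machine to a closed set of states -/

/-- all the successors of a command satisfy `P` -/
def Cmd.All {Q K A : Type} (P : Q → Prop) : Cmd Q K A → Prop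
  | .halt => True
  | .jump q => P q
  | .push _ _ q => P q
  | .pop _ f => ∀ a, P (f a)

/-- the functoriality of commands -/
def Cmd.map {Q Q' K A : Type} (g : Q → Q') : Cmd Q K A → Cmd Q' K A
  | .halt => .halt
  | .jump q => .jump (g q)
  | .push k a q => .push k a (g q)
  | .pop k f => .pop k (fun a => g (f a))

/-- one step in the restricted machine -/
theorem step_map {Q K A : Type} [DecidableEq K] (δ : Q → Cmd Q K A) (P : Q → Prop)
    (hP : ∀ q, P q → Cmd.All P (δ q)) (r : Q → {q // P q}) (hr : ∀ q (h : P q), r q = ⟨q, h⟩)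
    (q : Q) (z : K → List A) (q' : Q) (z' : K → List A) (h : P q)
    (hs : step δ (q, z) = some (q', z')) :
    ∃ h' : P q', step (fun q : {q // P q} => Cmd.map r (δ q.1)) (⟨q, h⟩, z) =
      some (⟨q', h'⟩, z') := by
  have hA := hP q h
  unfold step at hs ⊢
  simp only at hs ⊢
  cases hδ : δ q with
  | halt => rw [hδ] at hs; simp at hs
  | jump p =>
    rw [hδ] at hs hA
    simp only [Option.some.injEq, Prod.mk.injEq] at hs
    obtain ⟨rfl, rfl⟩ := hs
    exact ⟨hA, by simp [Cmd.map, hr p hA]⟩
  | push k a p =>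
    rw [hδ] at hs hA
    simp only [Option.some.injEq, Prod.mk.injEq] at hs
    obtain ⟨rfl, rfl⟩ := hs
    exact ⟨hA, by simp [Cmd.map, hr p hA]⟩
  | pop k f =>
    rw [hδ] at hs hA
    simp only at hs
    cases hz : z k with
    | nil => rw [hz] at hs; simp at hs
    | cons a l =>
      rw [hz] at hs
      simp only [Option.some.injEq, Prod.mk.injEq] at hs
      obtain ⟨rfl, rfl⟩ := hs
      exact ⟨hA a, by simp [Cmd.map, hr _ (hA a), hz]⟩

theorem reach_map {Q K A : Type} [DecidableEq K] (δ : Q → Cmd Q K A) (P : Q → Prop)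
    (hP : ∀ q, P q → Cmd.All P (δ q)) (r : Q → {q // P q}) (hr : ∀ q (h : P q), r q = ⟨q, h⟩)
    (c c' : Q × (K → List A)) (h : P c.1)
    (hs : ReflTransGen (fun x y => step δ x = some y) c c') :
    ∃ h' : P c'.1, ReflTransGen
      (fun x y => step (fun q : {q // P q} => Cmd.map r (δ q.1)) x = some y)
      (⟨c.1, h⟩, c.2) (⟨c'.1, h'⟩, c'.2) := by
  induction hs with
  | refl => exact ⟨h, ReflTransGen.refl⟩
  | @tail b d hb hd ih =>
    obtain ⟨hb', ih⟩ := ih
    obtain ⟨hd', hst⟩ := step_map δ P hP r hr b.1 b.2 d.1 d.2 hb' hd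
    exact ⟨hd', ih.tail hst⟩

/-! ### the machine -/

/-- the states (an infinite type) -/
inductive St : Type
  | run (s : Stmt') (v : Option Γ') : St
  | put (k : K') (a : Option Γ') (s : Stmt') (v : Option Γ') : St
  | fin : St
  | rej : St
  | acc : St

/-- the transition function on `run` states -/
def dRun (v : Option Γ') : Stmt' → Cmd St K' (Option Γ')
  | TM2.Stmt.push k f s => .push k (some (f v)) (.run s v)
  | TM2.Stmt.peek k f s => .pop k (fun a => .put k a s (f v a))
  | TM2.Stmt.pop k f s => .pop k (fun a => match a with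
      | none => .put k none s (f v none)
      | some x => .run s (f v (some x)))
  | TM2.Stmt.load g s => .jump (.run s (g v))
  | TM2.Stmt.branch p s t => .jump (.run (cond (p v) s t) v)
  | TM2.Stmt.goto l => .jump (.run (tr (l v)) v)
  | TM2.Stmt.halt => .jump .fin

/-- the transition function -/
def dlt : St → Cmd St K' (Option Γ')
  | .run s v => dRun v s
  | .put k a s v => .push k a (.run s v)
  | .fin => .pop .main (fun a => if a = some Γ'.cons then .rej else .acc)
  | .rej => .halt
  | .acc => .halt

/-- the encoding of stacks -/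
def enc (S : K' → List Γ') : K' → List (Option Γ') := fun k => (S k).map some ++ [none]

/-- the state of a configuration -/
def tgt (c : Cfg') : St × (K' → List (Option Γ')) :=
  match c.l with
  | some l => (.run (tr l) c.var, enc c.stk)
  | none => (.fin, enc c.stk)

/-- reachability -/
abbrev Rch : St × (K' → List (Option Γ')) → St × (K' → List (Option Γ')) → Prop :=
  ReflTransGen (fun x y => step dlt x = some y)

theorem sim_stmt (s : Stmt') (v : Option Γ') (S : K' → List Γ') :
    Rch (.run s v, enc S) (tgt (TM2.stepAux s v S)) := by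
  induction s generalizing v S with
  | push k f s ih =>
    refine ReflTransGen.head ?_ (ih v (Function.update S k (f v :: S k)))
    simp only [step, dlt, dRun, Option.some.injEq, Prod.mk.injEq, true_and]
    funext k'
    by_cases hk : k' = k
    · subst hk; simp [enc]
    · simp [enc, Function.update_of_ne hk]
  | peek k f s ih =>
    refine ReflTransGen.head (b := (.put k (S k).head? s (f v (S k).head?),
      Function.update (enc S) k (enc S k).tail)) ?_ (ReflTransGen.head ?_ (ih _ S))
    · cases hS : S k with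
      | nil => simp [step, dlt, dRun, enc, hS]
      | cons x l => simp [step, dlt, dRun, enc, hS]
    · simp only [step, dlt, Option.some.injEq, Prod.mk.injEq, true_and]
      funext k'
      by_cases hk : k' = k
      · subst hk
        cases hS : S k' with
        | nil => simp [enc, hS]
        | cons x l => simp [enc, hS]
      · simp [Function.update_of_ne hk]
  | pop k f s ih =>
    cases hS : S k with
    | nil =>
      have h1 : TM2.stepAux (TM2.Stmt.pop k f s) v S = TM2.stepAux s (f v none) S := by
        simp only [TM2.stepAux, hS]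
        congr 1
        funext k'
        by_cases hk : k' = k
        · subst hk; simp [hS]
        · simp [Function.update_of_ne hk]
      rw [h1]
      refine ReflTransGen.head (b := (.put k none s (f v none),
        Function.update (enc S) k [])) ?_ (ReflTransGen.head ?_ (ih (f v none) S))
      · simp [step, dlt, dRun, enc, hS]
      · simp only [step, dlt, Option.some.injEq, Prod.mk.injEq, true_and]
        funext k'
        by_cases hk : k' = k
        · subst hk; simp [enc, hS]
        · simp [Function.update_of_ne hk]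
    | cons x l =>
      have h1 : TM2.stepAux (TM2.Stmt.pop k f s) v S =
          TM2.stepAux s (f v (some x)) (Function.update S k l) := by
        simp only [TM2.stepAux, hS]
        rfl
      rw [h1]
      refine ReflTransGen.head ?_ (ih (f v (some x)) (Function.update S k l))
      simp only [step, dlt, dRun, enc, hS, List.map_cons, List.cons_append, Option.some.injEq,
        Prod.mk.injEq, true_and]
      funext k'
      by_cases hk : k' = k
      · subst hk; simp [enc]
      · simp [Function.update_of_ne hk, enc]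
  | load g s ih =>
    refine ReflTransGen.head ?_ (ih (g v) S)
    simp [step, dlt, dRun]
  | branch p s t ihs iht =>
    cases hp : p v with
    | true =>
      have h1 : TM2.stepAux (TM2.Stmt.branch p s t) v S = TM2.stepAux s v S := by
        simp [TM2.stepAux, hp]
      rw [h1]
      refine ReflTransGen.head ?_ (ihs v S)
      simp [step, dlt, dRun, hp]
    | false =>
      have h1 : TM2.stepAux (TM2.Stmt.branch p s t) v S = TM2.stepAux t v S := by
        simp [TM2.stepAux, hp]
      rw [h1]
      refine ReflTransGen.head ?_ (iht v S)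
      simp [step, dlt, dRun, hp]
  | goto l =>
    refine ReflTransGen.single ?_
    simp [step, dlt, dRun, tgt]
  | halt =>
    refine ReflTransGen.single ?_
    simp [step, dlt, dRun, tgt]

theorem sim_reaches {c c' : Cfg'} (h : StateTransition.Reaches (TM2.step tr) c c') :
    Rch (tgt c) (tgt c') := by
  induction h with
  | refl => exact ReflTransGen.refl
  | @tail b d _ hd ih =>
    refine ih.trans ?_
    obtain ⟨l, v, S⟩ := b
    cases l with
    | none => simp at hd
    | some l =>
      simp only [TM2.step, Option.mem_def, Option.some.injEq] at hd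
      rw [← hd]
      exact sim_stmt (tr l) v S

/-! ### finitely many states -/

/-- the supported states -/
def Sup (T : Finset Λ') : St → Prop
  | .run s _ => ∃ l ∈ T, s ∈ TM2.stmts₁ (tr l)
  | .put _ _ s _ => ∃ l ∈ T, s ∈ TM2.stmts₁ (tr l)
  | .fin => True
  | .rej => True
  | .acc => True

theorem sup_closed {T : Finset Λ'} (hT : ∀ q ∈ T, TM2.SupportsStmt T (tr q)) (q : St)
    (hq : Sup T q) : Cmd.All (Sup T) (dlt q) := by
  cases q with
  | run s v =>
    obtain ⟨l, hl, hs⟩ := hq
    have hsub : ∀ t, t ∈ TM2.stmts₁ s → Sup T (.run t v) := fun t ht =>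
      ⟨l, hl, TM2.stmts₁_trans hs ht⟩
    have hsup := TM2.stmts₁_supportsStmt_mono hs (hT l hl)
    cases s with
    | push k f s =>
      exact ⟨l, hl, TM2.stmts₁_trans hs (by simp [TM2.stmts₁, TM2.stmts₁_self])⟩
    | peek k f s =>
      intro a
      exact ⟨l, hl, TM2.stmts₁_trans hs (by simp [TM2.stmts₁, TM2.stmts₁_self])⟩
    | pop k f s =>
      intro a
      cases a with
      | none => exact ⟨l, hl, TM2.stmts₁_trans hs (by simp [TM2.stmts₁, TM2.stmts₁_self])⟩
      | some x => exact ⟨l, hl, TM2.stmts₁_trans hs (by simp [TM2.stmts₁, TM2.stmts₁_self])⟩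
    | load g s =>
      exact ⟨l, hl, TM2.stmts₁_trans hs (by simp [TM2.stmts₁, TM2.stmts₁_self])⟩
    | branch p s t =>
      refine ⟨l, hl, TM2.stmts₁_trans hs ?_⟩
      cases p v <;> simp [TM2.stmts₁, TM2.stmts₁_self]
    | goto l' =>
      exact ⟨l' v, hsup v, TM2.stmts₁_self⟩
    | halt => trivial
  | put k a s v => exact hq
  | fin =>
    intro a
    show Sup T (if a = some Γ'.cons then St.rej else St.acc)
    split_ifs <;> trivial
  | rej => trivial
  | acc => trivial

instance : Finite K' := by
  refine Finite.of_surjective (fun i : Fin 4 => match i with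
    | 0 => K'.main | 1 => K'.rev | 2 => K'.aux | 3 => K'.stack) ?_
  intro k
  cases k
  · exact ⟨0, rfl⟩
  · exact ⟨1, rfl⟩
  · exact ⟨2, rfl⟩
  · exact ⟨3, rfl⟩

theorem finite_sup (T : Finset Λ') : Finite {q : St // Sup T q} := by
  classical
  let U : Set Stmt' := {s | ∃ l ∈ T, s ∈ TM2.stmts₁ (tr l)}
  have hU : U.Finite := by
    refine Set.Finite.subset (Set.Finite.biUnion T.finite_toSet
      fun l _ => Finset.finite_toSet (TM2.stmts₁ (tr l))) ?_
    rintro s ⟨l, hl, hs⟩
    exact Set.mem_biUnion hl hs
  have : Finite U := hU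
  let g : (U × Option Γ') ⊕ (K' × Option Γ' × U × Option Γ') ⊕ Fin 3 → {q : St // Sup T q} :=
    fun x => match x with
      | .inl (s, v) => ⟨.run s.1 v, s.2⟩
      | .inr (.inl (k, a, s, v)) => ⟨.put k a s.1 v, s.2⟩
      | .inr (.inr 0) => ⟨.fin, trivial⟩
      | .inr (.inr 1) => ⟨.rej, trivial⟩
      | .inr (.inr 2) => ⟨.acc, trivial⟩
  refine Finite.of_surjective g ?_
  rintro ⟨q, hq⟩
  cases q with
  | run s v => exact ⟨.inl (⟨s, hq⟩, v), rfl⟩
  | put k a s v => exact ⟨.inr (.inl (k, a, ⟨s, hq⟩, v)), rfl⟩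
  | fin => exact ⟨.inr (.inr 0), rfl⟩
  | rej => exact ⟨.inr (.inr 1), rfl⟩
  | acc => exact ⟨.inr (.inr 2), rfl⟩

/-! ### the input -/

theorem trNat_two_pow_sub_one (n : ℕ) : trNat (2 ^ n - 1) = List.replicate n Γ'.bit1 := by
  have key : ∀ n : ℕ, ∃ p : PosNum, (p : ℕ) = 2 ^ (n + 1) - 1 ∧
      trPosNum p = List.replicate (n + 1) Γ'.bit1 := by
    intro n
    induction n with
    | zero => exact ⟨PosNum.one, by simp, rfl⟩
    | succ n ih =>
      obtain ⟨p, h1, h2⟩ := ih
      refine ⟨PosNum.bit1 p, ?_, ?_⟩
      · rw [PosNum.cast_bit1, h1]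
        have : 2 ≤ 2 ^ (n + 1) := by
          calc 2 = 2 ^ 1 := rfl
            _ ≤ 2 ^ (n + 1) := Nat.pow_le_pow_right (by norm_num) (by omega)
        rw [pow_succ 2 (n + 1)]
        omega
      · rw [trPosNum, h2, List.replicate_succ (n := n + 1)]
  cases n with
  | zero => simp
  | succ n =>
    obtain ⟨p, h1, h2⟩ := key n
    rw [← h2, ← h1, trNat]
    have : ((p : ℕ) : Num) = Num.pos p := by
      rw [← Num.cast_pos, Num.of_to_nat]
    rw [this]
    rfl

theorem inp_eq (n : ℕ) : inpStk n = enc (K'.elim (trList [2 ^ n - 1]) [] [] []) := by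
  funext k
  cases k
  · simp [inpStk, enc, trNat_two_pow_sub_one]
  · simp [inpStk, enc]
  · simp [inpStk, enc]
  · simp [inpStk, enc]

/-! ### a recursively inseparable pair -/

/-- there is a partial recursive function whose values `0`, `1` diagonalize against all decidable
sets -/
theorem exists_partrec : ∃ G : ℕ →. ℕ, Nat.Partrec G ∧ ∀ D : ℕ → Prop, ComputablePred D →
    ∃ n : ℕ, (¬ D n ∧ 1 ∈ G (2 ^ n - 1)) ∨ (D n ∧ 0 ∈ G (2 ^ n - 1)) := by
  classical
  let F : ℕ →. ℕ := fun e => ((Denumerable.ofNat Nat.Partrec.Code e).eval e).map (fun x => 1 - x)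
  have hF : Partrec F := by
    refine Partrec.map ?_ ?_
    · exact Nat.Partrec.Code.eval_part.comp (Computable.ofNat _) Computable.id
    · exact (Primrec.nat_sub.comp (Primrec.const 1) Primrec.snd).to_comp.to₂
  let G : ℕ →. ℕ := fun m => (Nat.rfind fun k => Part.some (decide (2 ^ k = m + 1))).bind F
  have hG : Partrec G := by
    refine Partrec.bind ?_ (hF.comp Computable.snd).to₂
    refine Partrec.rfind ?_
    refine Computable₂.partrec₂ ?_
    have hpow : Primrec₂ (fun a b : ℕ => a ^ b) := Primrec₂.unpaired'.1 Nat.Primrec.pow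
    refine Primrec₂.to_comp ?_
    refine (Primrec.eq (α := ℕ)).decide.comp ?_ ?_
    · exact hpow.comp (Primrec.const 2) Primrec.snd
    · exact Primrec.succ.comp Primrec.fst
  refine ⟨G, Partrec.nat_iff.1 hG, fun D hD => ?_⟩
  have hD' : Computable fun a => decide (D a) := ComputablePred.decide hD
  have hf : Computable fun a : ℕ => Encodable.encode (decide (D a)) :=
    Computable.encode.comp hD'
  obtain ⟨c, hc⟩ := Nat.Partrec.Code.exists_code.1 (Partrec.nat_iff.1 hf)
  refine ⟨Encodable.encode c, ?_⟩
  have hFn : F (Encodable.encode c) =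
      Part.some (1 - Encodable.encode (decide (D (Encodable.encode c)))) := by
    simp only [F, Denumerable.ofNat_encode, hc]
    simp
  have hGn : ∀ n, G (2 ^ n - 1) = F n := by
    intro n
    have h1 : 0 < 2 ^ n := by positivity
    have h2 : (Nat.rfind fun k => Part.some (decide (2 ^ k = 2 ^ n - 1 + 1))) = Part.some n := by
      rw [Part.eq_some_iff, Nat.mem_rfind]
      refine ⟨?_, ?_⟩
      · simp only [Part.mem_some_iff, eq_comm (a := true), decide_eq_true_eq]
        omega
      · intro m hm
        have h3 : 2 ^ m < 2 ^ n := Nat.pow_lt_pow_right (by norm_num) hm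
        simp only [Part.mem_some_iff, eq_comm (a := false), decide_eq_false_iff_not]
        omega
    simp only [G, h2, Part.bind_some]
  rw [hGn, hFn]
  by_cases h : D (Encodable.encode c)
  · right
    refine ⟨h, ?_⟩
    simp [h]
  · left
    refine ⟨h, ?_⟩
    simp [h]

theorem reach_out {c : ToPartrec.Code} {G : ℕ →. ℕ}
    (hc : ∀ v : List.Vector ℕ 1, c.eval v.1 = pure <$> G v.head) {n x : ℕ}
    (hx : x ∈ G (2 ^ n - 1)) :
    Rch (.run (tr (trNormal c Cont'.halt)) none, inpStk n)
      (.fin, enc (K'.elim (trList [x]) [] [] [])) := by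
  have h1 : [x] ∈ c.eval [2 ^ n - 1] := by
    have h2 : c.eval [2 ^ n - 1] = pure <$> G (2 ^ n - 1) := hc ⟨[2 ^ n - 1], rfl⟩
    rw [h2]
    exact Part.mem_map _ hx
  have h2 : halt [x] ∈ StateTransition.eval (TM2.step tr) (init c [2 ^ n - 1]) := by
    rw [tr_eval]
    exact Part.mem_map _ h1
  have h3 := sim_reaches (StateTransition.mem_eval.1 h2).1
  rw [inp_eq]
  exact h3

end m1

theorem exists_machine :
    ∃ (Q : Type) (_ : Finite Q) (δ : Q → Cmd Q K' (Option Γ')) (q0 qrej : Q),
      δ qrej = .halt ∧
      ∀ D : ℕ → Prop, ComputablePred D → ∃ n : ℕ,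
        (¬ D n ∧ ∃ c, Relation.ReflTransGen (fun x y => step δ x = some y) (q0, inpStk n) c ∧
          step δ c = none ∧ c.1 ≠ qrej) ∨
        (D n ∧ ∃ c, Relation.ReflTransGen (fun x y => step δ x = some y) (q0, inpStk n) c ∧
          c.1 = qrej) := by
  classical
  obtain ⟨G, hG, hGD⟩ := m1.exists_partrec
  obtain ⟨c, hc⟩ := ToPartrec.Code.exists_code (Nat.Partrec'.part_iff₁.2 (Partrec.nat_iff.2 hG))
  let T := codeSupp c Cont'.halt
  have hT := (tr_supports c Cont'.halt)
  have hcl := m1.sup_closed (T := T) hT.2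
  let r : m1.St → {q : m1.St // m1.Sup T q} := fun q =>
    if h : m1.Sup T q then ⟨q, h⟩ else ⟨.rej, trivial⟩
  have hr : ∀ q (h : m1.Sup T q), r q = ⟨q, h⟩ := fun q h => dif_pos h
  have hq0 : m1.Sup T (.run (tr (trNormal c Cont'.halt)) none) :=
    ⟨trNormal c Cont'.halt, hT.1, TM2.stmts₁_self⟩
  have hmain : ∀ x : ℕ, ∀ y l, trList [x] = y :: l →
      step m1.dlt (.fin, m1.enc (K'.elim (trList [x]) [] [] [])) =
        some (if y = Γ'.cons then m1.St.rej else m1.St.acc,
          Function.update (m1.enc (K'.elim (trList [x]) [] [] [])) K'.main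
            (l.map some ++ [none])) := by
    intro x y l h
    simp only [step, m1.dlt, m1.enc, K'.elim, h, List.map_cons, List.cons_append,
      Option.some.injEq]
  refine ⟨{q : m1.St // m1.Sup T q}, m1.finite_sup T, fun q => m1.Cmd.map r (m1.dlt q.1),
    ⟨_, hq0⟩, ⟨.rej, trivial⟩, rfl, fun D hD => ?_⟩
  obtain ⟨n, h | h⟩ := hGD D hD
  · refine ⟨n, Or.inl ⟨h.1, ?_⟩⟩
    have h1 := (m1.reach_out hc h.2).tail (hmain 1 Γ'.bit1 [Γ'.cons] rfl)
    obtain ⟨h2, h3⟩ := m1.reach_map m1.dlt (m1.Sup T) hcl r hr _ _ hq0 h1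
    refine ⟨_, h3, ?_, ?_⟩
    · simp [step, m1.dlt, m1.Cmd.map]
    · intro h4
      have h5 := congrArg Subtype.val h4
      simp at h5
  · refine ⟨n, Or.inr ⟨h.1, ?_⟩⟩
    have h1 := (m1.reach_out hc h.2).tail (hmain 0 Γ'.cons [] (by simp))
    obtain ⟨h2, h3⟩ := m1.reach_map m1.dlt (m1.Sup T) hcl r hr _ _ hq0 h1
    refine ⟨_, h3, ?_⟩
    simp

end Pool.Agent.Helper91.SG
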