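import Pool.Agent.Helper91.SG.Defs

namespace Pool.Agent.Helper91.SG

open Pointwise

universe u

namespace m7

variable {G : Type u} [Group G]

theorem sing_mul (g h : G) : ({g * h} : Set G) = {g} * {h} := Set.singleton_mul_singleton.symm

theorem cancel_left (g : G) (X : Set G) : {g⁻¹} * ({g} * X) = X := by
  rw [← mul_assoc, ← sing_mul, inv_mul_cancel, Set.singleton_one, one_mul]

theorem cancel_left' (g : G) (X : Set G) : {g} * ({g⁻¹} * X) = X := by
  rw [← mul_assoc, ← sing_mul, mul_inv_cancel, Set.singleton_one, one_mul]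

theorem cancel_right (g : G) (X : Set G) : X * {g} * {g⁻¹} = X := by
  rw [mul_assoc, ← sing_mul, mul_inv_cancel, Set.singleton_one, mul_one]

theorem right_inj {g : G} {X Y : Set G} (h : X * {g} = Y * {g}) : X = Y := by
  have := congrArg (fun Z => Z * {g⁻¹}) h
  simpa only [cancel_right] using this

theorem left_inj {g : G} {X Y : Set G} (h : {g} * X = {g} * Y) : X = Y := by
  have := congrArg (fun Z => {g⁻¹} * Z) h
  simpa only [cancel_left] using this

/-- a nonempty idempotent subset of a periodic group is closed under inverses -/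
theorem inv_eq (hG : ∀ g : G, IsOfFinOrder g) {e : Set G} (he : e * e = e) : e⁻¹ = e := by
  have hmul : ∀ x ∈ e, ∀ y ∈ e, x * y ∈ e := fun x hx y hy => he ▸ Set.mul_mem_mul hx hy
  have hpow : ∀ x ∈ e, ∀ n : ℕ, x ^ (n + 1) ∈ e := by
    intro x hx n
    induction n with
    | zero => simpa using hx
    | succ n ih => rw [pow_succ]; exact hmul _ ih _ hx
  have hinv : ∀ x ∈ e, x⁻¹ ∈ e := by
    intro x hx
    obtain ⟨n, hn, hx1⟩ := (isOfFinOrder_iff_pow_eq_one.1 (hG x))
    have h2 : x⁻¹ = x ^ (2 * n - 1) := by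
      rw [inv_eq_iff_mul_eq_one, ← pow_succ']
      have : 2 * n - 1 + 1 = n * 2 := by omega
      rw [this, pow_mul, hx1, one_pow]
    rw [h2]
    have : 2 * n - 1 = (2 * n - 2) + 1 := by omega
    rw [this]
    exact hpow x hx _
  ext x
  rw [Set.mem_inv]
  exact ⟨fun hx => by simpa using hinv _ hx, fun hx => hinv _ hx⟩

/-- the left stabilizer of a set -/
def stab (X : Set G) : Subgroup G where
  carrier := {g | {g} * X = X}
  one_mem' := by simp
  mul_mem' := by
    intro g h hg hh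
    simp only [Set.mem_ofPred_eq] at *
    rw [sing_mul, mul_assoc, hh, hg]
  inv_mem' := by
    intro g hg
    simp only [Set.mem_ofPred_eq] at *
    conv_lhs => rw [← hg]
    exact cancel_left g X

theorem mem_stab {X : Set G} {g : G} : g ∈ stab X ↔ {g} * X = X := Iff.rfl

end m7

open m7 in
/-- The hidden group. -/
theorem hidden {G : Type u} [Group G] (hG : ∀ g : G, IsOfFinOrder g)
    (R : List (ℕ × ℕ × ℕ)) (N tgt : ℕ) (hN : 0 < N) (htgt : tgt < N)
    (hR : ∀ t ∈ R, t.1 < N ∧ t.2.1 < N ∧ t.2.2 < N)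
    (e0 f0 e1 f1 : Set G) (a b : ℕ → Set G) (h : Eqs R N tgt e0 f0 e1 f1 a b) :
    ∃ (H : Type u) (_ : Group H) (f : ℕ → H), IsSol R f ∧ f tgt ≠ 1 := by
  obtain ⟨X0, hX0⟩ : ∃ X, X = e0 * f0 := ⟨_, rfl⟩
  obtain ⟨X1, hX1⟩ : ∃ X, X = e1 * f1 := ⟨_, rfl⟩
  have inv0 : X0⁻¹ = f0 * e0 := by rw [hX0, mul_inv_rev, inv_eq hG h.he0, inv_eq hG h.hf0]
  have inv1 : X1⁻¹ = f1 * e1 := by rw [hX1, mul_inv_rev, inv_eq hG h.he1, inv_eq hG h.hf1]
  have hab : ∀ x < N, a x * X0 * b x = X1 := by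
    intro x hx
    rw [hX0, hX1, ← mul_assoc]
    exact h.hab x hx
  have hba : ∀ x < N, b x * X1⁻¹ * a x = X0⁻¹ := by
    intro x hx
    rw [inv1, inv0, ← mul_assoc]
    exact h.hba x hx
  have hne : a tgt * X0 ≠ a 0 * X0 := by
    have := h.hne
    rwa [mul_assoc, mul_assoc, ← hX0] at this
  have hX0ne : X0.Nonempty := by
    by_contra hc
    rw [Set.not_nonempty_iff_eq_empty] at hc
    exact hne (by rw [hc, Set.mul_empty, Set.mul_empty])
  have hne2 : ∀ x < N, (a x).Nonempty ∧ (b x).Nonempty := by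
    intro x hx
    have h1 : (b x * X1⁻¹ * a x).Nonempty := by
      rw [hba x hx]
      exact hX0ne.inv
    rw [Set.mul_nonempty, Set.mul_nonempty] at h1
    exact ⟨h1.2, h1.1.1⟩
  have key : ∀ x < N, ∀ P ∈ a x, ∀ Q ∈ b x, {P} * X0 * {Q} = X1 := by
    intro x hx P hP Q hQ
    refine Set.Subset.antisymm ?_ ?_
    · rw [← hab x hx]
      exact Set.mul_subset_mul (Set.mul_subset_mul_right (Set.singleton_subset_iff.2 hP))
        (Set.singleton_subset_iff.2 hQ)
    · have h1 : {Q} * X1⁻¹ * {P} ⊆ X0⁻¹ := by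
        rw [← hba x hx]
        exact Set.mul_subset_mul (Set.mul_subset_mul_right (Set.singleton_subset_iff.2 hQ))
          (Set.singleton_subset_iff.2 hP)
      have h2 : {P⁻¹} * X1 * {Q⁻¹} ⊆ X0 := by
        have := Set.inv_subset_inv.2 h1
        rw [inv_inv, mul_inv_rev, mul_inv_rev, inv_inv, Set.inv_singleton, Set.inv_singleton,
          ← mul_assoc] at this
        exact this
      have h3 : X1 = {P} * ({P⁻¹} * X1 * {Q⁻¹}) * {Q} := by
        have e1 := cancel_right Q⁻¹ X1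
        rw [inv_inv] at e1
        rw [← mul_assoc, ← mul_assoc, ← sing_mul, mul_inv_cancel, Set.singleton_one, one_mul, e1]
      conv_lhs => rw [h3]
      exact Set.mul_subset_mul_right (Set.mul_subset_mul_left h2)
  -- choose representatives
  have hP : ∀ x, ∃ P, x < N → P ∈ a x := by
    intro x
    by_cases hx : x < N
    · obtain ⟨P, hP⟩ := (hne2 x hx).1
      exact ⟨P, fun _ => hP⟩
    · exact ⟨1, fun h => absurd h hx⟩
  have hQ : ∀ x, ∃ P, x < N → P ∈ b x := by
    intro x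
    by_cases hx : x < N
    · obtain ⟨P, hP⟩ := (hne2 x hx).2
      exact ⟨P, fun _ => hP⟩
    · exact ⟨1, fun h => absurd h hx⟩
  choose P hP using hP
  choose Q hQ using hQ
  have ha : ∀ x < N, a x * X0 = {P x} * X0 := by
    intro x hx
    refine Set.Subset.antisymm ?_ (Set.mul_subset_mul_right (Set.singleton_subset_iff.2 (hP x hx)))
    rintro _ ⟨p, hp, q, hq, rfl⟩
    have h1 : {p} * X0 = {P x} * X0 :=
      right_inj ((key x hx p hp _ (hQ x hx)).trans (key x hx _ (hP x hx) _ (hQ x hx)).symm)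
    rw [← h1]
    exact Set.mul_mem_mul rfl hq
  have hb : ∀ x < N, X0 * b x = X0 * {Q x} := by
    intro x hx
    refine Set.Subset.antisymm ?_ (Set.mul_subset_mul_left (Set.singleton_subset_iff.2 (hQ x hx)))
    rintro _ ⟨p, hp, q, hq, rfl⟩
    have h1 : X0 * {q} = X0 * {Q x} := by
      refine left_inj (g := P x) ?_
      rw [← mul_assoc, ← mul_assoc]
      exact (key x hx _ (hP x hx) q hq).trans (key x hx _ (hP x hx) _ (hQ x hx)).symm
    rw [← h1]
    exact Set.mul_mem_mul hp rfl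
  have kPQ : ∀ x < N, {P x} * X0 * {Q x} = X1 := fun x hx => key x hx _ (hP x hx) _ (hQ x hx)
  have hbX : ∀ x < N, X0 * b x = {(P x)⁻¹} * X1 := by
    intro x hx
    rw [hb x hx, ← kPQ x hx, mul_assoc, cancel_left]
  obtain ⟨M, hM⟩ : ∃ M, M = stab X0 := ⟨_, rfl⟩
  -- stabilizer of X1
  have st1 : ∀ x < N, ∀ g : G, g ∈ stab X1 ↔ (P x)⁻¹ * g * P x ∈ M := by
    intro x hx g
    rw [mem_stab, hM, mem_stab, ← kPQ x hx]
    constructor
    · intro h1
      refine left_inj (g := P x) (right_inj (g := Q x) ?_)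
      rw [sing_mul, sing_mul, mul_assoc {(P x)⁻¹}, mul_assoc {(P x)⁻¹}, cancel_left']
      rw [← h1]
      simp only [mul_assoc]
    · intro h1
      rw [sing_mul, sing_mul] at h1
      have h2 := congrArg (fun Z => {P x} * Z * {Q x}) h1
      simp only [mul_assoc] at h2 ⊢
      rw [cancel_left'] at h2
      exact h2
  have hnorm : ∀ x < N, (P 0)⁻¹ * P x ∈ Subgroup.normalizer (M : Set G) := by
    intro x hx
    rw [Subgroup.mem_normalizer_iff]
    intro g
    have h1 := st1 x hx (P x * g * (P x)⁻¹)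
    have h2 := st1 0 hN (P x * g * (P x)⁻¹)
    rw [h1] at h2
    have e1 : (P x)⁻¹ * (P x * g * (P x)⁻¹) * P x = g := by group
    have e2 : (P 0)⁻¹ * (P x * g * (P x)⁻¹) * P 0 = (P 0)⁻¹ * P x * g * ((P 0)⁻¹ * P x)⁻¹ := by group
    rwa [e1, e2] at h2
  -- the group
  let hh : ℕ → Subgroup.normalizer (M : Set G) := fun x => if hx : x < N then ⟨(P 0)⁻¹ * P x, hnorm x hx⟩ else 1
  have hhv : ∀ x < N, ((hh x : Subgroup.normalizer (M : Set G)) : G) = (P 0)⁻¹ * P x := by
    intro x hx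
    simp only [hh, dif_pos hx]
  refine ⟨Subgroup.normalizer (M : Set G) ⧸ M.subgroupOf (Subgroup.normalizer (M : Set G)),
    inferInstance, fun x => (hh x : _ ⧸ _),
    ⟨?_, ?_⟩, ?_⟩
  · rw [QuotientGroup.eq_one_iff, Subgroup.mem_subgroupOf, hhv 0 hN, inv_mul_cancel]
    exact M.one_mem
  · intro t ht
    obtain ⟨h1, h2, h3⟩ := hR t ht
    have e := h.hR t ht
    rw [mul_assoc, mul_assoc, mul_assoc, mul_assoc, ← mul_assoc e0, ← mul_assoc e0, ← hX0] at e
    have e' : {P t.2.2} * X0 * b t.2.1 = {P t.1} * X0 * b 0 := by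
      rw [← ha _ h3, ← ha _ h1, mul_assoc, mul_assoc]
      exact e
    rw [mul_assoc, mul_assoc, hbX _ h2, hbX _ hN, ← kPQ 0 hN] at e'
    have e2 : {P t.2.2} * ({(P t.2.1)⁻¹} * ({P 0} * X0)) = {P t.1} * X0 := by
      refine right_inj (g := Q 0) ?_
      have e3 := e'
      rw [mul_assoc {P 0} X0 {Q 0}, cancel_left] at e3
      simp only [mul_assoc] at e3 ⊢
      exact e3
    have e4 : (P t.1)⁻¹ * (P t.2.2 * ((P t.2.1)⁻¹ * P 0)) ∈ M := by
      rw [hM, mem_stab, sing_mul, sing_mul, sing_mul]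
      refine left_inj (g := P t.1) ?_
      rw [mul_assoc, cancel_left', ← e2]
      simp only [mul_assoc]
    rw [← QuotientGroup.mk_mul, QuotientGroup.eq, Subgroup.mem_subgroupOf]
    push_cast
    rw [hhv _ h1, hhv _ h2, hhv _ h3]
    have hy := hnorm _ h2
    rw [Subgroup.mem_normalizer_iff] at hy
    rw [hy]
    have e5 : (P 0)⁻¹ * P t.2.1 * (((P 0)⁻¹ * P t.1 * ((P 0)⁻¹ * P t.2.1))⁻¹ * ((P 0)⁻¹ * P t.2.2))
        * ((P 0)⁻¹ * P t.2.1)⁻¹ = (P t.1)⁻¹ * (P t.2.2 * ((P t.2.1)⁻¹ * P 0)) := by group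
    rw [e5]
    exact e4
  · intro hc
    rw [QuotientGroup.eq_one_iff, Subgroup.mem_subgroupOf, hhv _ htgt, hM, mem_stab, sing_mul,
      mul_assoc] at hc
    apply hne
    rw [ha _ htgt, ha _ hN]
    have := congrArg (fun Z => {P 0} * Z) hc
    simpa only [cancel_left'] using this

end Pool.Agent.Helper91.SG
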