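import Pool.Agent.Helper91.SG.Defs

namespace Pool.Agent.Helper91.SG

open Pointwise

/-- A bound for the size of the finite semigroup of a group system with `N` variables. -/
def bnd (N : ℕ) : ℕ := 24 * (2 * N + 1) ^ 3 + 2

namespace M8

/-! ### The wreath product with `Z/2` -/

/-- The wreath product of `A` with `Z/2`. -/
@[ext] structure W (A : Type) where
  /-- the two components -/
  u : Bool → A
  /-- the permutation -/
  p : Bool

variable {A : Type}

instance [Group A] : Mul (W A) := ⟨fun g h => ⟨fun i => g.u (xor h.p i) * h.u i, xor g.p h.p⟩⟩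
instance [Group A] : One (W A) := ⟨⟨fun _ => 1, false⟩⟩
instance [Group A] : Inv (W A) := ⟨fun g => ⟨fun i => (g.u (xor g.p i))⁻¹, g.p⟩⟩

theorem mul_u [Group A] (g h : W A) (i : Bool) : (g * h).u i = g.u (xor h.p i) * h.u i := rfl
theorem mul_p [Group A] (g h : W A) : (g * h).p = xor g.p h.p := rfl

instance [Group A] : Group (W A) := Group.ofLeftAxioms
  (by
    intro a b c
    ext i
    · simp only [mul_u, mul_p, mul_assoc]
      rw [Bool.xor_assoc]
    · simp only [mul_p, Bool.xor_assoc])
  (by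
    intro a
    ext i
    · change (1 : A) * a.u i = a.u i
      rw [one_mul]
    · change xor false a.p = a.p
      simp)
  (by
    intro a
    ext i
    · change (a.u (xor a.p (xor a.p i)))⁻¹ * a.u i = 1
      rw [← Bool.xor_assoc, Bool.xor_self, Bool.false_xor, inv_mul_cancel]
    · change xor a.p a.p = false
      simp)

instance [Finite A] : Finite (W A) :=
  Finite.of_injective (fun g : W A => (g.u, g.p)) (fun g h hgh => by
    simp only [Prod.mk.injEq] at hgh
    exact W.ext hgh.1 hgh.2)

/-! ### The families of sets in `W A` -/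

/-- The six families. -/
inductive Fam | P | inn | Y | Q | ni | mt
  deriving DecidableEq

instance : Fintype Fam :=
  ⟨{.P, .inn, .Y, .Q, .ni, .mt}, by intro x; cases x <;> decide⟩

/-- The sets of the families. -/
def fam : Fam → A → Set (W A)
  | .P, x => {g | g.p = false ∧ g.u false = x}
  | .inn, x => {g | g.u false = x}
  | .Y, x => {g | g.p = true ∨ g.u false = x}
  | .Q, x => {g | g.u false = x ∧ g.u true = x}
  | .ni, x => {g | g.u g.p = x}
  | .mt, x => {g | g.u false = x ∨ g.u true = x}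

/-- The sets of the families, and `univ`. -/
def famO : Option Fam → A → Set (W A)
  | none, _ => Set.univ
  | some F, x => fam F x

/-- Left multiplication by `P`. -/
def pm : Fam → Option Fam
  | .P => some .P
  | .inn => some .Y
  | .Y => some .Y
  | .Q => some .ni
  | .ni => some .ni
  | .mt => none

/-- Left multiplication by `Q`. -/
def qm : Fam → Option Fam
  | .P => some .inn
  | .inn => some .inn
  | .Y => none
  | .Q => some .Q
  | .ni => some .mt
  | .mt => some .mt

theorem fam_nonempty (F : Fam) (x : A) : (fam F x).Nonempty := by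
  refine ⟨⟨fun _ => x, false⟩, ?_⟩
  cases F <;> simp [fam]

theorem P_mul [Group A] (F : Fam) (x y : A) : fam .P x * fam F y = famO (pm F) (x * y) := by
  ext g
  constructor
  · rintro ⟨a, ha, b, hb, rfl⟩
    obtain ⟨ap, au⟩ := ha
    rcases hbp : b.p <;> cases F <;>
      simp_all [fam, famO, pm, mul_u, mul_p]
  · intro hg
    refine ⟨⟨fun i => if i = false then x else g.u (!g.p) * y⁻¹, false⟩, ⟨rfl, by simp⟩,
      ⟨fun i => if i = g.p then x⁻¹ * g.u g.p else y, g.p⟩, ?_, ?_⟩
    · rcases hgp : g.p <;> cases F <;> simp_all [fam, famO, pm]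
    · ext i
      · rcases g.p <;> cases i <;> simp [mul_u]
      · simp [mul_p]

theorem Q_mul [Group A] (F : Fam) (x y : A) : fam .Q x * fam F y = famO (qm F) (x * y) := by
  ext g
  constructor
  · rintro ⟨a, ha, b, hb, rfl⟩
    obtain ⟨ap, au⟩ := ha
    rcases hbp : b.p <;> cases F <;>
      simp_all [fam, famO, qm, mul_u]
  · intro hg
    have key : ∀ q : Bool, (⟨fun i => x⁻¹ * g.u i, q⟩ : W A) ∈ fam F y →
        g ∈ fam .Q x * fam F y := by
      intro q hq
      refine ⟨⟨fun _ => x, xor g.p q⟩, ⟨rfl, rfl⟩, _, hq, ?_⟩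
      ext i
      · simp [mul_u]
      · simp [mul_p]
    cases F
    · exact key false (by simp_all [fam, famO, qm])
    · exact key false (by simp_all [fam, famO, qm])
    · exact key true (by simp_all [fam, famO, qm])
    · exact key false (by simp_all [fam, famO, qm])
    · rcases hg with hg | hg
      · exact key false (by simp_all [fam])
      · exact key true (by simp_all [fam])
    · exact key false (by rcases hg with hg | hg <;> simp_all [fam])

/-! ### The sets in `W K` -/

/-- The set of the elements that map `i` to `j` with component in `B`. -/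
def arr {K : Type} (i j : Bool) (B : Set K) : Set (W K) := {g | xor g.p i = j ∧ g.u i ∈ B}

section arr

variable {K : Type} [Group K]

theorem arr_mul (i j k : Bool) (B C : Set K) : arr j k B * arr i j C = arr i k (B * C) := by
  ext g
  constructor
  · rintro ⟨a, ⟨ha1, ha2⟩, b, ⟨hb1, hb2⟩, rfl⟩
    refine ⟨?_, ?_⟩
    · simp only [mul_p]
      rw [Bool.xor_assoc, hb1, ha1]
    · simp only [mul_u]
      rw [hb1]
      exact Set.mul_mem_mul ha2 hb2
  · rintro ⟨hg, ⟨x, hx, y, hy, hxy⟩⟩
    refine ⟨⟨fun l => if l = j then x else g.u (!i), xor g.p (xor i j)⟩, ⟨?_, ?_⟩,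
      ⟨fun l => if l = i then y else 1, xor i j⟩, ⟨?_, ?_⟩, ?_⟩
    · rw [← hg]
      cases g.p <;> cases i <;> cases j <;> rfl
    · simpa using hx
    · cases i <;> cases j <;> rfl
    · simpa using hy
    · ext l
      · simp only [mul_u]
        simp only at hxy
        cases i <;> cases j <;> cases l <;> simp [hxy]
      · simp only [mul_p]
        cases g.p <;> cases i <;> cases j <;> rfl

theorem arr_mul' (i j k : Bool) (B C : Set K) (hB : B.Nonempty) (hC : C.Nonempty) :
    arr (!j) k B * arr i j C = arr i (!k) Set.univ := by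
  obtain ⟨x, hx⟩ := hB
  obtain ⟨y, hy⟩ := hC
  ext g
  constructor
  · rintro ⟨a, ⟨ha1, ha2⟩, b, ⟨hb1, hb2⟩, rfl⟩
    refine ⟨?_, Set.mem_univ _⟩
    simp only [mul_p]
    rw [Bool.xor_assoc, hb1, ← ha1]
    cases a.p <;> cases j <;> rfl
  · rintro ⟨hg, -⟩
    refine ⟨⟨fun l => if l = !j then x else g.u i * y⁻¹, xor g.p (xor i j)⟩, ⟨?_, ?_⟩,
      ⟨fun l => if l = i then y else x⁻¹ * g.u (!i), xor i j⟩, ⟨?_, ?_⟩, ?_⟩
    · have : k = !(xor g.p i) := by rw [hg]; simp
      rw [this]
      cases g.p <;> cases i <;> cases j <;> rfl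
    · simpa using hx
    · cases i <;> cases j <;> rfl
    · simpa using hy
    · ext l
      · simp only [mul_u]
        cases i <;> cases j <;> cases l <;> simp
      · simp only [mul_p]
        cases g.p <;> cases i <;> cases j <;> rfl

omit [Group K] in
theorem arr_univ (i j : Bool) : arr (!i) (!j) (Set.univ : Set K) = arr i j Set.univ := by
  ext g
  simp only [arr, Set.mem_univ, and_true, Set.mem_ofPred_eq]
  cases g.p <;> cases i <;> cases j <;> simp

theorem arr_mul_univ (i j j' k : Bool) (B : Set K) (hB : B.Nonempty) :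
    ∃ k', arr j' k B * arr i j (Set.univ : Set K) = arr i k' Set.univ := by
  by_cases h : j' = j
  · subst h
    refine ⟨k, ?_⟩
    rw [arr_mul]
    congr 1
    obtain ⟨b, hb⟩ := hB
    refine Set.eq_univ_of_forall fun g => ?_
    exact ⟨b, hb, b⁻¹ * g, Set.mem_univ _, mul_inv_cancel_left b g⟩
  · have h' : j' = !j := by cases j' <;> cases j <;> simp_all
    subst h'
    exact ⟨!k, arr_mul' _ _ _ _ _ hB ⟨1, Set.mem_univ _⟩⟩

end arr

/-! ### The finite family -/

/-- The number of factors allowed. -/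
def rk : Fam → Bool → ℕ
  | .P, j => j.toNat
  | .inn, j => 2 - j.toNat
  | .Y, j => 2 + j.toNat
  | .Q, j => 1 - j.toNat
  | .ni, j => 1 + j.toNat
  | .mt, j => 3 - j.toNat

section big

variable {Γ : Type} [Group Γ] [DecidableEq Γ]

/-- The big family. -/
def big (D : Finset Γ) : Set (Set (W (W Γ))) :=
  {s | (∃ (i j : Bool) (F : Fam) (γ : Γ), γ ∈ D ^ rk F j ∧ s = arr i j (fam F γ)) ∨
    ∃ i j : Bool, s = arr i j Set.univ}

theorem big_mul {D : Finset Γ} (hD : (1 : Γ) ∈ D) {M : Fam} {mm : Fam → Option Fam}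
    (hm : ∀ (F : Fam) (x y : Γ), fam M x * fam F y = famO (mm F) (x * y)) (j' k : Bool) (d : ℕ)
    (x : Γ) (hx : x ∈ D ^ d) (hd : ∀ F F', mm F = some F' → d + rk F j' ≤ rk F' k)
    {s : Set (W (W Γ))} (hs : s ∈ big D) : arr j' k (fam M x) * s ∈ big D := by
  rcases hs with ⟨i, j, F, γ, hγ, rfl⟩ | ⟨i, j, rfl⟩
  · by_cases h : j' = j
    · subst h
      rw [arr_mul, hm]
      cases hF : mm F with
      | none => exact Or.inr ⟨i, k, rfl⟩
      | some F' =>
        refine Or.inl ⟨i, k, F', x * γ, ?_, rfl⟩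
        have h1 : x * γ ∈ D ^ (d + rk F j') := by
          rw [pow_add]
          exact Finset.mul_mem_mul hx hγ
        exact Finset.pow_subset_pow_right hD (hd F F' hF) h1
    · have h' : j' = !j := by cases j' <;> cases j <;> simp_all
      subst h'
      rw [arr_mul' _ _ _ _ _ (fam_nonempty _ _) (fam_nonempty _ _)]
      exact Or.inr ⟨i, !k, rfl⟩
  · obtain ⟨k', hk'⟩ := arr_mul_univ i j j' k (fam M x) (fam_nonempty _ _)
    rw [hk']
    exact Or.inr ⟨i, k', rfl⟩

theorem rk_le (F : Fam) (j : Bool) : rk F j ≤ 3 := by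
  cases F <;> cases j <;> decide

theorem big_card {D : Finset Γ} (hD : (1 : Γ) ∈ D) {n : ℕ} (hn : D.card ≤ n) :
    (big D).Finite ∧ (big D).ncard ≤ 24 * n ^ 3 + 2 := by
  classical
  set T : Finset (Set (W (W Γ))) :=
    ((Finset.univ : Finset (Bool × Bool × Fam)) ×ˢ (D ^ 3)).image
      (fun t => arr t.1.1 t.1.2.1 (fam t.1.2.2 t.2)) ∪
      {arr false false Set.univ, arr false true Set.univ} with hT
  have hsub : big D ⊆ (T : Set (Set (W (W Γ)))) := by
    rintro s (⟨i, j, F, γ, hγ, rfl⟩ | ⟨i, j, rfl⟩)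
    · rw [hT, Finset.mem_coe, Finset.mem_union]
      left
      rw [Finset.mem_image]
      refine ⟨((i, j, F), γ), ?_, rfl⟩
      rw [Finset.mem_product]
      exact ⟨Finset.mem_univ _, Finset.pow_subset_pow_right hD (rk_le F j) hγ⟩
    · rw [hT, Finset.mem_coe, Finset.mem_union]
      right
      rw [Finset.mem_insert, Finset.mem_singleton]
      cases i
      · cases j
        · exact Or.inl rfl
        · exact Or.inr rfl
      · cases j
        · right; exact arr_univ (K := W Γ) false true
        · left; exact arr_univ (K := W Γ) false false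
  refine ⟨T.finite_toSet.subset hsub, ?_⟩
  refine (Set.ncard_le_ncard hsub T.finite_toSet).trans ?_
  rw [Set.ncard_coe_finset]
  refine (Finset.card_union_le _ _).trans ?_
  refine Nat.add_le_add ?_ Finset.card_le_two
  refine Finset.card_image_le.trans ?_
  rw [Finset.card_product]
  refine Nat.mul_le_mul (by decide) ?_
  exact (Finset.card_pow_le).trans (Nat.pow_le_pow_left hn 3)

end big

end M8

/-- The realization: from a solution in a finite group one gets sets satisfying the equations,
inside a subsemigroup `C` of `P(G)` with at most `bnd N` elements, `G` finite. -/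
theorem realization (R : List (ℕ × ℕ × ℕ)) (N tgt : ℕ)
    {Γ : Type} [Group Γ] [Finite Γ] (f : ℕ → Γ) (hf : IsSol R f) (hne : f tgt ≠ 1) :
    ∃ (G : Type) (_ : Group G) (_ : Finite G) (e0 f0 e1 f1 : Set G) (a b : ℕ → Set G)
      (C : Set (Set G)),
      Eqs R N tgt e0 f0 e1 f1 a b ∧ (∀ x ∈ C, ∀ y ∈ C, x * y ∈ C) ∧
      e0 ∈ C ∧ f0 ∈ C ∧ e1 ∈ C ∧ f1 ∈ C ∧ (∀ x < N, a x ∈ C) ∧ (∀ x < N, b x ∈ C) ∧
      C.ncard ≤ bnd N := by
  classical
  set D : Finset Γ := {1} ∪ ((Finset.range N).image f ∪
    (Finset.range N).image (fun x => (f x)⁻¹)) with hD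
  have hD1 : (1 : Γ) ∈ D := by simp [hD]
  have hDf : ∀ x < N, f x ∈ D := by
    intro x hx
    rw [hD, Finset.mem_union, Finset.mem_union]
    exact Or.inr (Or.inl (Finset.mem_image_of_mem _ (Finset.mem_range.2 hx)))
  have hDi : ∀ x < N, (f x)⁻¹ ∈ D := by
    intro x hx
    rw [hD, Finset.mem_union, Finset.mem_union]
    exact Or.inr (Or.inr (Finset.mem_image_of_mem (fun x => (f x)⁻¹) (Finset.mem_range.2 hx)))
  have hDc : D.card ≤ 2 * N + 1 := by
    have h1 := Finset.card_union_le {(1 : Γ)} ((Finset.range N).image f ∪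
      (Finset.range N).image (fun x => (f x)⁻¹))
    have h2 := Finset.card_union_le ((Finset.range N).image f)
      ((Finset.range N).image (fun x => (f x)⁻¹))
    have h3 := Finset.card_image_le (s := Finset.range N) (f := f)
    have h4 := Finset.card_image_le (s := Finset.range N) (f := fun x => (f x)⁻¹)
    rw [Finset.card_range] at h3 h4
    rw [Finset.card_singleton] at h1
    rw [← hD] at h1
    omega
  obtain ⟨hfin, hcard⟩ := M8.big_card hD1 hDc
  refine ⟨M8.W (M8.W Γ), inferInstance, inferInstance,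
    M8.arr false false (M8.fam .P 1), M8.arr false false (M8.fam .Q 1),
    M8.arr true true (M8.fam .P 1), M8.arr true true (M8.fam .Q 1),
    fun x => M8.arr false true (M8.fam .P (f x)),
    fun x => M8.arr true false (M8.fam .Q (f x)⁻¹),
    {s | s ∈ M8.big D ∧ ∀ t ∈ M8.big D, s * t ∈ M8.big D}, ?_, ?_, ?_, ?_, ?_, ?_, ?_, ?_, ?_⟩
  · constructor
    · simp only [M8.arr_mul, M8.P_mul, M8.pm, M8.famO, mul_one]
    · simp only [M8.arr_mul, M8.Q_mul, M8.qm, M8.famO, mul_one]
    · simp only [M8.arr_mul, M8.P_mul, M8.pm, M8.famO, mul_one]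
    · simp only [M8.arr_mul, M8.Q_mul, M8.qm, M8.famO, mul_one]
    · intro x _
      simp only [mul_assoc]
      simp only [M8.arr_mul, M8.P_mul, M8.Q_mul, M8.pm, M8.qm, M8.famO, mul_one,
        one_mul, mul_inv_cancel]
    · intro x _
      simp only [mul_assoc]
      simp only [M8.arr_mul, M8.P_mul, M8.Q_mul, M8.pm, M8.qm, M8.famO, mul_one,
        one_mul, inv_mul_cancel]
    · intro t ht
      have h1 := hf.2 t ht
      have h2 : f t.2.2 * (f t.2.1)⁻¹ = f t.1 := by rw [← h1, mul_inv_cancel_right]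
      simp only [mul_assoc]
      simp only [M8.arr_mul, M8.P_mul, M8.Q_mul, M8.pm, M8.qm, M8.famO, mul_one,
        one_mul, h2, hf.1, inv_one]
    · simp only [mul_assoc]
      simp only [M8.arr_mul, M8.P_mul, M8.pm, M8.famO, mul_one, hf.1]
      intro h
      have h1 : (⟨fun _ => ⟨fun _ => f tgt, false⟩, true⟩ : M8.W (M8.W Γ)) ∈
          M8.arr false true (M8.fam .ni (f tgt)) := ⟨rfl, rfl⟩
      rw [h] at h1
      exact hne h1.2
  · rintro x ⟨_, hx⟩ y ⟨hy, hy'⟩
    refine ⟨hx y hy, fun t ht => ?_⟩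
    rw [mul_assoc]
    exact hx _ (hy' t ht)
  · refine ⟨Or.inl ⟨false, false, .P, 1, by simp [M8.rk], rfl⟩, fun t ht => ?_⟩
    exact M8.big_mul hD1 (fun F x y => M8.P_mul F x y) false false 0 1 (by simp) (by decide) ht
  · refine ⟨Or.inl ⟨false, false, .Q, 1, by simpa [M8.rk] using hD1, rfl⟩, fun t ht => ?_⟩
    exact M8.big_mul hD1 (fun F x y => M8.Q_mul F x y) false false 0 1 (by simp) (by decide) ht
  · refine ⟨Or.inl ⟨true, true, .P, 1, by simpa [M8.rk] using hD1, rfl⟩, fun t ht => ?_⟩
    exact M8.big_mul hD1 (fun F x y => M8.P_mul F x y) true true 0 1 (by simp) (by decide) ht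
  · refine ⟨Or.inl ⟨true, true, .Q, 1, by simp [M8.rk], rfl⟩, fun t ht => ?_⟩
    exact M8.big_mul hD1 (fun F x y => M8.Q_mul F x y) true true 0 1 (by simp) (by decide) ht
  · intro x hx
    refine ⟨Or.inl ⟨false, true, .P, f x, by simpa [M8.rk] using hDf x hx, rfl⟩, fun t ht => ?_⟩
    exact M8.big_mul hD1 (fun F x y => M8.P_mul F x y) false true 1 (f x)
      (by simpa using hDf x hx) (by decide) ht
  · intro x hx
    refine ⟨Or.inl ⟨true, false, .Q, (f x)⁻¹, by simpa [M8.rk] using hDi x hx, rfl⟩,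
      fun t ht => ?_⟩
    exact M8.big_mul hD1 (fun F x y => M8.Q_mul F x y) true false 1 (f x)⁻¹
      (by simpa using hDi x hx) (by decide) ht
  · exact (Set.ncard_le_ncard (fun x hx => hx.1) hfin).trans hcard

end Pool.Agent.Helper91.SG
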