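import Pool.Agent.Helper91.SG.Defs

namespace Pool.Agent.Helper91.SG

namespace M9

/-- all lists of length at most `k` over the letters in `l` -/
def upTo {α : Type} (l : List α) : ℕ → List (List α)
  | 0 => [[]]
  | k + 1 => [] :: l.flatMap fun a => (upTo l k).map (fun w => a :: w)

theorem mem_upTo {α : Type} (l : List α) : ∀ (k : ℕ) (w : List α),
    w ∈ upTo l k ↔ w.length ≤ k ∧ ∀ a ∈ w, a ∈ l
  | 0, w => by
    simp only [upTo, List.mem_singleton, Nat.le_zero, List.length_eq_zero_iff]
    constructor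
    · rintro rfl
      simp
    · exact fun h => h.1
  | k + 1, w => by
    simp only [upTo, List.mem_cons, List.mem_flatMap, List.mem_map]
    constructor
    · rintro (rfl | ⟨a, ha, w', hw', rfl⟩)
      · simp
      · obtain ⟨h1, h2⟩ := (mem_upTo l k w').1 hw'
        refine ⟨by simpa using h1, ?_⟩
        intro b hb
        rcases List.mem_cons.1 hb with rfl | hb
        · exact ha
        · exact h2 b hb
    · rintro ⟨h1, h2⟩
      cases w with
      | nil => exact Or.inl rfl
      | cons a w =>
        right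
        exact ⟨a, h2 a (by simp), w, (mem_upTo l k w).2 ⟨by simpa using h1,
          fun b hb => h2 b (by simp [hb])⟩, rfl⟩

theorem upTo_eq {α : Type} (l : List α) (k : ℕ) : upTo l k =
    Nat.rec (motive := fun _ => List (List α)) [[]]
      (fun _ IH => [] :: l.flatMap fun a => IH.map (fun w => a :: w)) k := by
  induction k with
  | zero => rfl
  | succ k ih => simp only [upTo, ih]

theorem primrec_upTo {α : Type} [Primcodable α] :
    Primrec₂ (upTo : List α → ℕ → List (List α)) := by
  have h : Primrec₂ fun (l : List α) (p : ℕ × List (List α)) =>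
      ([] : List α) :: l.flatMap fun a => p.2.map (fun w => a :: w) := by
    refine Primrec.list_cons.comp (Primrec.const []) (Primrec.list_flatMap Primrec.fst ?_)
    exact Primrec.list_map (Primrec.snd.comp (Primrec.snd.comp Primrec.fst))
      (Primrec.list_cons.comp (Primrec.snd.comp Primrec.fst) Primrec.snd)
  refine (Primrec.nat_rec (Primrec.const [[]]) h).of_eq ?_
  intro l k
  exact (upTo_eq l k).symm

/-- the candidates -/
def cands (K len : ℕ) : List (List (List ℕ) × List ℕ) :=
  (upTo (upTo (List.range K) K) K).flatMap fun T => (upTo (List.range K) len).map fun A => (T, A)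

theorem mem_cands (K len : ℕ) (T : List (List ℕ)) (A : List ℕ) : (T, A) ∈ cands K len ↔
    (T.length ≤ K ∧ ∀ r ∈ T, r.length ≤ K ∧ ∀ x ∈ r, x < K) ∧
      (A.length ≤ len ∧ ∀ x ∈ A, x < K) := by
  simp only [cands, List.mem_flatMap, List.mem_map, Prod.mk.injEq, mem_upTo, List.mem_range]
  constructor
  · rintro ⟨T', h1, A', h2, rfl, rfl⟩
    exact ⟨h1, h2⟩
  · rintro ⟨h1, h2⟩
    exact ⟨T, h1, A, h2, rfl, rfl⟩

theorem primrec_cands : Primrec₂ cands := by
  have h1 : Primrec fun p : ℕ × ℕ => upTo (upTo (List.range p.1) p.1) p.1 :=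
    primrec_upTo.comp (primrec_upTo.comp (Primrec.list_range.comp Primrec.fst) Primrec.fst)
      Primrec.fst
  have h2 : Primrec fun p : ℕ × ℕ => upTo (List.range p.1) p.2 :=
    primrec_upTo.comp (Primrec.list_range.comp Primrec.fst) Primrec.snd
  refine Primrec.list_flatMap h1 ?_
  refine Primrec.list_map (h2.comp Primrec.fst) ?_
  exact Primrec.pair (Primrec.snd.comp Primrec.fst) Primrec.snd

theorem primrec_entry : Primrec fun p : List (List ℕ) × ℕ × ℕ => entry p.1 p.2.1 p.2.2 := by
  exact (Primrec.list_getD 0).comp ((Primrec.list_getD []).comp Primrec.fst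
    (Primrec.fst.comp Primrec.snd)) (Primrec.snd.comp Primrec.snd)

theorem primrec_ev : Primrec fun p : (List (List ℕ) × List ℕ) × List ℕ => ev p.1.1 p.1.2 p.2 := by
  have h1 : Primrec₂ fun (p : (List (List ℕ) × List ℕ) × List ℕ) (q : ℕ × List ℕ) =>
      q.2.foldl (fun acc h => entry p.1.1 acc (p.1.2.getD h 0)) (p.1.2.getD q.1 0) := by
    have hA : Primrec fun x : ((List (List ℕ) × List ℕ) × List ℕ) × (ℕ × List ℕ) => x.1.1.2 :=
      Primrec.snd.comp (Primrec.fst.comp Primrec.fst)
    refine Primrec.list_foldl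
      (h := fun (x : ((List (List ℕ) × List ℕ) × List ℕ) × (ℕ × List ℕ)) (q : ℕ × ℕ) =>
        entry x.1.1.1 q.1 (x.1.1.2.getD q.2 0)) (Primrec.snd.comp Primrec.snd)
      ((Primrec.list_getD 0).comp hA (Primrec.fst.comp Primrec.snd)) ?_
    refine primrec_entry.comp (Primrec.pair
      (Primrec.fst.comp (Primrec.fst.comp (Primrec.fst.comp Primrec.fst)))
      (Primrec.pair (Primrec.fst.comp Primrec.snd)
        ((Primrec.list_getD 0).comp (hA.comp Primrec.fst) (Primrec.snd.comp Primrec.snd))))
  refine (Primrec.list_casesOn Primrec.snd (Primrec.const 0) h1).of_eq ?_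
  rintro ⟨⟨T, A⟩, w⟩
  cases w <;> rfl

/-- the primitive recursive part of the test -/
def Test (p : (List (List ℕ × List ℕ) × List ℕ × List ℕ) × (List (List ℕ) × List ℕ)) : Prop :=
  (∀ x ∈ p.2.2, x < p.2.1.length) ∧ (∀ e ∈ p.1.1, ev p.2.1 p.2.2 e.1 = ev p.2.1 p.2.2 e.2) ∧
    ev p.2.1 p.2.2 p.1.2.1 ≠ ev p.2.1 p.2.2 p.1.2.2

theorem primrec_test : PrimrecPred Test := by
  have h1 : PrimrecPred fun p : (List (List ℕ × List ℕ) × List ℕ × List ℕ) ×
      (List (List ℕ) × List ℕ) => ∀ x ∈ p.2.2, x < p.2.1.length := by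
    have h : PrimrecRel fun (x : ℕ) (m : ℕ) => x < m := Primrec.nat_lt
    exact PrimrecPred.comp h.forall_mem_list (Primrec.pair (Primrec.snd.comp Primrec.snd)
      (Primrec.list_length.comp (Primrec.fst.comp Primrec.snd)))
  have h2 : PrimrecPred fun p : (List (List ℕ × List ℕ) × List ℕ × List ℕ) ×
      (List (List ℕ) × List ℕ) => ∀ e ∈ p.1.1, ev p.2.1 p.2.2 e.1 = ev p.2.1 p.2.2 e.2 := by
    have h : PrimrecRel fun (e : List ℕ × List ℕ) (q : List (List ℕ) × List ℕ) =>
        ev q.1 q.2 e.1 = ev q.1 q.2 e.2 :=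
      Primrec.eq.comp (primrec_ev.comp (Primrec.pair Primrec.snd (Primrec.fst.comp Primrec.fst)))
        (primrec_ev.comp (Primrec.pair Primrec.snd (Primrec.snd.comp Primrec.fst)))
    exact PrimrecPred.comp h.forall_mem_list (Primrec.pair (Primrec.fst.comp Primrec.fst)
      Primrec.snd)
  have h3 : PrimrecPred fun p : (List (List ℕ × List ℕ) × List ℕ × List ℕ) ×
      (List (List ℕ) × List ℕ) => ev p.2.1 p.2.2 p.1.2.1 = ev p.2.1 p.2.2 p.1.2.2 :=
    Primrec.eq.comp
      (primrec_ev.comp (Primrec.pair Primrec.snd (Primrec.fst.comp (Primrec.snd.comp Primrec.fst))))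
      (primrec_ev.comp (Primrec.pair Primrec.snd (Primrec.snd.comp (Primrec.snd.comp Primrec.fst))))
  exact h1.and (h2.and h3.not)

/-- A bounded search over a computable list. -/
theorem exists_list {β : Type} [Primcodable β] (L : ℕ → List β) (hL : Computable L)
    (t : ℕ → β → Bool) (ht : Computable₂ t) : ComputablePred fun n => ∃ x ∈ L n, t n x = true := by
  rw [ComputablePred.computable_iff]
  let s : ℕ → ℕ → Bool := fun n k => Nat.rec (motive := fun _ => Bool) false
    (fun i IH => IH || ((L n)[i]?).elim false (t n)) k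
  have hs : ∀ n k, s n k = true ↔ ∃ i < k, ∃ x, (L n)[i]? = some x ∧ t n x = true := by
    intro n k
    induction k with
    | zero => simp [s]
    | succ k ih =>
      have h1 : s n (k + 1) = (s n k || ((L n)[k]?).elim false (t n)) := rfl
      rw [h1, Bool.or_eq_true, ih]
      constructor
      · rintro (⟨i, hi, h⟩ | h)
        · exact ⟨i, by omega, h⟩
        · refine ⟨k, by omega, ?_⟩
          cases h2 : (L n)[k]? with
          | none => rw [h2] at h; simp at h
          | some x => rw [h2] at h; exact ⟨x, rfl, h⟩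
      · rintro ⟨i, hi, x, h2, h3⟩
        rcases Nat.lt_succ_iff_lt_or_eq.1 hi with hi | rfl
        · exact Or.inl ⟨i, hi, x, h2, h3⟩
        · right
          rw [h2]
          exact h3
  refine ⟨fun n => s n (L n).length, ?_, ?_⟩
  · refine Computable.nat_rec (h := fun (n : ℕ) (p : ℕ × Bool) =>
      (p.2 || ((L n)[p.1]?).elim false (t n))) (Computable.list_length.comp hL)
      (Computable.const false) ?_
    have h1 : Computable fun p : ℕ × ℕ × Bool => (L p.1)[p.2.1]? :=
      Computable.list_getElem?.comp (hL.comp Computable.fst) (Computable.fst.comp Computable.snd)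
    have h2 : Computable fun p : ℕ × ℕ × Bool => ((L p.1)[p.2.1]?).elim false (t p.1) := by
      refine (Computable.option_casesOn h1 (Computable.const false)
        (g := fun p x => t p.1 x) ?_).of_eq ?_
      · exact ht.comp (Computable.fst.comp Computable.fst) Computable.snd
      · intro p
        cases (L p.1)[p.2.1]? <;> rfl
    exact Primrec.or.to_comp.comp (Computable.snd.comp Computable.snd) h2
  · funext n
    rw [hs]
    apply propext
    constructor
    · rintro ⟨x, hx, h⟩
      obtain ⟨i, hi, rfl⟩ := List.getElem_of_mem hx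
      exact ⟨i, hi, _, List.getElem?_eq_getElem hi, h⟩
    · rintro ⟨i, _, x, h1, h2⟩
      exact ⟨x, List.mem_of_getElem? h1, h2⟩

end M9

open M9 in
/-- Bounded search over tables and assignments. -/
theorem search (P : List (List ℕ) → Prop) (hP : ComputablePred P)
    (E : ℕ → List (List ℕ × List ℕ)) (hE : Computable E) (u v : ℕ → List ℕ)
    (hu : Computable u) (hv : Computable v) (K len : ℕ → ℕ) (hK : Computable K)
    (hlen : Computable len) :
    ComputablePred fun n => ∃ (T : List (List ℕ)) (A : List ℕ),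
      (T.length ≤ K n ∧ ∀ r ∈ T, r.length ≤ K n ∧ ∀ x ∈ r, x < K n) ∧
      (A.length ≤ len n ∧ ∀ x ∈ A, x < T.length) ∧
      P T ∧ (∀ e ∈ E n, ev T A e.1 = ev T A e.2) ∧ ev T A (u n) ≠ ev T A (v n) := by
  obtain ⟨f, hf, rfl⟩ := ComputablePred.computable_iff.1 hP
  obtain ⟨hd, hd'⟩ := primrec_test
  have ht : Computable₂ fun (n : ℕ) (x : List (List ℕ) × List ℕ) =>
      (f x.1 && decide (Test ((E n, u n, v n), x))) := by
    refine Primrec.and.to_comp.comp (hf.comp (Computable.fst.comp Computable.snd)) ?_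
    exact hd'.to_comp.comp (((hE.comp Computable.fst).pair
      ((hu.comp Computable.fst).pair (hv.comp Computable.fst))).pair Computable.snd)
  refine (exists_list (fun n => cands (K n) (len n)) (primrec_cands.to_comp.comp hK hlen) _
    ht).of_eq ?_
  intro n
  constructor
  · rintro ⟨⟨T, A⟩, h1, h2⟩
    rw [mem_cands] at h1
    simp only [Bool.and_eq_true, decide_eq_true_eq] at h2
    obtain ⟨h2, h3, h4, h5⟩ := h2
    exact ⟨T, A, h1.1, ⟨h1.2.1, h3⟩, h2, h4, h5⟩
  · rintro ⟨T, A, h1, h2, h3, h4, h5⟩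
    refine ⟨(T, A), (mem_cands _ _ _ _).2 ⟨h1, h2.1, fun x hx => (h2.2 x hx).trans_le h1.1⟩, ?_⟩
    simp only [Bool.and_eq_true, decide_eq_true_eq]
    exact ⟨h3, h2.2, h4, h5⟩

end Pool.Agent.Helper91.SG
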