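import Pool.Agent.Helper91.SG.M6
import Pool.Agent.Helper91.SG.M7
import Pool.Agent.Helper91.SG.M8
import Pool.Agent.Helper91.SG.M9

namespace Pool.Agent.Helper91.SG

open Pointwise

universe u

/-! ### Evaluation of words in tables -/

/-- `T` is the multiplication table of a semigroup on `{0, …, n - 1}`, `n = T.length`: there are
`n` rows of length `n`, the entries are less than `n`, and the multiplication is associative. -/
def IsSemigroupTable (T : List (List ℕ)) : Prop :=
  (∀ r ∈ T, r.length = T.length) ∧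
  (∀ i < T.length, ∀ j < T.length, entry T i j < T.length) ∧
  (∀ i < T.length, ∀ j < T.length, ∀ k < T.length,
    entry T (entry T i j) k = entry T i (entry T j k))

/-- The semigroup with table `T` embeds into `P(G)`. -/
def TableEmbeds (T : List (List ℕ)) (G : Type*) [Group G] : Prop :=
  ∃ φ : ℕ → Set G, Set.InjOn φ {i | i < T.length} ∧
    ∀ i < T.length, ∀ j < T.length, φ (entry T i j) = φ i * φ j

lemma phi_foldl {T : List (List ℕ)} {A : List ℕ} {G : Type*} [Group G] {φ : ℕ → Set G}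
    (hT : ∀ i < T.length, ∀ j < T.length, entry T i j < T.length)
    (hφ : ∀ i < T.length, ∀ j < T.length, φ (entry T i j) = φ i * φ j) (w : List ℕ)
    (hA : ∀ g ∈ w, A.getD g 0 < T.length) : ∀ i < T.length,
    w.foldl (fun acc h => entry T acc (A.getD h 0)) i < T.length ∧
    φ (w.foldl (fun acc h => entry T acc (A.getD h 0)) i) =
      w.foldl (fun acc h => acc * φ (A.getD h 0)) (φ i) := by
  induction w with
  | nil => intro i hi; exact ⟨hi, rfl⟩
  | cons g w ih =>
    intro i hi
    have hg : A.getD g 0 < T.length := hA g (by simp)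
    simp only [List.foldl_cons]
    rw [← hφ i hi _ hg]
    exact ih (fun g' hg' => hA g' (by simp [hg'])) _ (hT i hi _ hg)

lemma phi_ev {T : List (List ℕ)} {A : List ℕ} {G : Type*} [Group G] {φ : ℕ → Set G}
    (hT : ∀ i < T.length, ∀ j < T.length, entry T i j < T.length)
    (hφ : ∀ i < T.length, ∀ j < T.length, φ (entry T i j) = φ i * φ j) (g : ℕ) (w : List ℕ)
    (hA : ∀ h ∈ g :: w, A.getD h 0 < T.length) :
    ev T A (g :: w) < T.length ∧
    φ (ev T A (g :: w)) = w.foldl (fun acc h => acc * φ (A.getD h 0)) (φ (A.getD g 0)) :=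
  phi_foldl hT hφ w (fun h hh => hA h (by simp [hh])) _ (hA g (by simp))

/-- The list of the word equations of the system `R` with `N` variables. The generators
`0, 1, 2, 3, 4 + 2 x, 5 + 2 x` stand for `e0, f0, e1, f1, a x, b x`. -/
def eqList (N : ℕ) (R : List (ℕ × ℕ × ℕ)) : List (List ℕ × List ℕ) :=
  [([0, 0], [0]), ([1, 1], [1]), ([2, 2], [2]), ([3, 3], [3])] ++
  (List.range N).flatMap (fun x =>
    [([4 + 2 * x, 0, 1, 5 + 2 * x], [2, 3]), ([5 + 2 * x, 3, 2, 4 + 2 * x], [1, 0])]) ++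
  R.map (fun t => ([4 + 2 * t.2.2, 0, 1, 5 + 2 * t.2.1], [4 + 2 * t.1, 0, 1, 5]))

/-- The generators as a function. -/
def gen {S : Type*} (e0 f0 e1 f1 : S) (a b : ℕ → S) : ℕ → S
  | 0 => e0
  | 1 => f0
  | 2 => e1
  | 3 => f1
  | n + 4 => if n % 2 = 0 then a (n / 2) else b (n / 2)

lemma gen_a {S : Type*} (e0 f0 e1 f1 : S) (a b : ℕ → S) (x : ℕ) :
    gen e0 f0 e1 f1 a b (4 + 2 * x) = a x := by
  rw [show 4 + 2 * x = 2 * x + 4 by ring]
  simp [gen]

lemma gen_b {S : Type*} (e0 f0 e1 f1 : S) (a b : ℕ → S) (x : ℕ) :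
    gen e0 f0 e1 f1 a b (5 + 2 * x) = b x := by
  rw [show 5 + 2 * x = (2 * x + 1) + 4 by ring]
  have h1 : (2 * x + 1) % 2 = 1 := by omega
  have h2 : (2 * x + 1) / 2 = x := by omega
  simp [gen, h1, h2]

/-- From a table satisfying the word equations to sets satisfying the equations. -/
lemma eqs_of_table {T : List (List ℕ)} {A : List ℕ} {G : Type*} [Group G] {φ : ℕ → Set G}
    {N tgt : ℕ} {R : List (ℕ × ℕ × ℕ)}
    (hinj : Set.InjOn φ {i | i < T.length})
    (hT : ∀ i < T.length, ∀ j < T.length, entry T i j < T.length)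
    (hφ : ∀ i < T.length, ∀ j < T.length, φ (entry T i j) = φ i * φ j)
    (hA : ∀ g, A.getD g 0 < T.length)
    (hE : ∀ e ∈ eqList N R, ev T A e.1 = ev T A e.2)
    (hne : ev T A [4 + 2 * tgt, 0, 1] ≠ ev T A [4, 0, 1]) :
    Eqs R N tgt (φ (A.getD 0 0)) (φ (A.getD 1 0)) (φ (A.getD 2 0)) (φ (A.getD 3 0))
      (fun x => φ (A.getD (4 + 2 * x) 0)) (fun x => φ (A.getD (5 + 2 * x) 0)) := by
  have key : ∀ g w, ev T A (g :: w) < T.length ∧
      φ (ev T A (g :: w)) = w.foldl (fun acc h => acc * φ (A.getD h 0)) (φ (A.getD g 0)) :=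
    fun g w => phi_ev hT hφ g w (fun h _ => hA h)
  have hE' : ∀ u v, (u, v) ∈ eqList N R → φ (ev T A u) = φ (ev T A v) := fun u v h => by
    rw [hE _ h]
  constructor
  · have := hE' [0, 0] [0] (by simp [eqList])
    rw [(key _ _).2, (key _ _).2] at this
    exact this
  · have := hE' [1, 1] [1] (by simp [eqList])
    rw [(key _ _).2, (key _ _).2] at this
    exact this
  · have := hE' [2, 2] [2] (by simp [eqList])
    rw [(key _ _).2, (key _ _).2] at this
    exact this
  · have := hE' [3, 3] [3] (by simp [eqList])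
    rw [(key _ _).2, (key _ _).2] at this
    exact this
  · intro x hx
    have := hE' [4 + 2 * x, 0, 1, 5 + 2 * x] [2, 3] (by
      simp only [eqList, List.mem_append, List.mem_flatMap, List.mem_range]
      exact Or.inl (Or.inr ⟨x, hx, by simp⟩))
    rw [(key _ _).2, (key _ _).2] at this
    exact this
  · intro x hx
    have := hE' [5 + 2 * x, 3, 2, 4 + 2 * x] [1, 0] (by
      simp only [eqList, List.mem_append, List.mem_flatMap, List.mem_range]
      exact Or.inl (Or.inr ⟨x, hx, by simp⟩))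
    rw [(key _ _).2, (key _ _).2] at this
    exact this
  · intro t ht
    have := hE' [4 + 2 * t.2.2, 0, 1, 5 + 2 * t.2.1] [4 + 2 * t.1, 0, 1, 5] (by
      simp only [eqList, List.mem_append, List.mem_map]
      exact Or.inr ⟨t, ht, rfl⟩)
    rw [(key _ _).2, (key _ _).2] at this
    exact this
  · intro h
    apply hne
    apply hinj (key _ _).1 (key _ _).1
    rw [(key _ _).2, (key _ _).2]
    exact h

/-! ### The table of a finite subsemigroup -/

lemma exists_table {G : Type*} [Group G] [Finite G] (C : Set (Set G))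
    (hC : ∀ x ∈ C, ∀ y ∈ C, x * y ∈ C) :
    ∃ (T : List (List ℕ)) (φ : ℕ → Set G) (idx : Set G → ℕ), T.length = C.ncard ∧
      IsSemigroupTable T ∧ Set.InjOn φ {i | i < T.length} ∧
      (∀ i < T.length, ∀ j < T.length, φ (entry T i j) = φ i * φ j) ∧
      (∀ s ∈ C, idx s < T.length ∧ φ (idx s) = s) ∧
      ∀ s ∈ C, ∀ t ∈ C, entry T (idx s) (idx t) = idx (s * t) := by
  classical
  have hfin : C.Finite := Set.toFinite C
  have : Finite C := hfin
  have hcard : Nat.card C = C.ncard := Nat.card_coe_set_eq C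
  obtain ⟨m, hm, ⟨e⟩⟩ : ∃ m, m = C.ncard ∧ Nonempty (C ≃ Fin m) :=
    ⟨_, rfl, ⟨(Finite.equivFin C).trans (finCongr hcard)⟩⟩
  let T : List (List ℕ) := List.ofFn fun i : Fin m => List.ofFn fun j : Fin m =>
    (e ⟨(e.symm i : Set G) * (e.symm j : Set G), hC _ (e.symm i).2 _ (e.symm j).2⟩ : ℕ)
  have hlen : T.length = m := by simp [T]
  have hent : ∀ i j : Fin m, entry T i j =
      (e ⟨(e.symm i : Set G) * (e.symm j : Set G), hC _ (e.symm i).2 _ (e.symm j).2⟩ : ℕ) := by
    intro i j
    simp [entry, T, List.getD_eq_getElem?_getD]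
  let φ : ℕ → Set G := fun i => if h : i < m then (e.symm ⟨i, h⟩ : Set G) else ∅
  have hφ : ∀ i : Fin m, φ i = (e.symm i : Set G) := by
    intro i
    simp [φ]
  let idx : Set G → ℕ := fun s => if h : s ∈ C then (e ⟨s, h⟩ : ℕ) else 0
  have hidx : ∀ s (h : s ∈ C), idx s = (e ⟨s, h⟩ : ℕ) := by
    intro s h
    simp [idx, h]
  have hφe : ∀ i j : Fin m, φ (entry T i j) = φ i * φ j := by
    intro i j
    rw [hent, hφ, hφ, hφ]
    simp
  refine ⟨T, φ, idx, by rw [hlen, hm], ⟨?_, ?_, ?_⟩, ?_, ?_, ?_, ?_⟩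
  · intro r hr
    simp only [T, List.mem_ofFn] at hr
    obtain ⟨i, rfl⟩ := hr
    rw [hlen]; simp
  · rw [hlen]
    intro i hi j hj
    have := hent ⟨i, hi⟩ ⟨j, hj⟩
    simp only at this
    rw [this]
    exact Fin.is_lt _
  · rw [hlen]
    intro i hi j hj k hk
    have h1 := hent ⟨i, hi⟩ ⟨j, hj⟩
    have h2 := hent ⟨j, hj⟩ ⟨k, hk⟩
    simp only at h1 h2
    rw [h1, h2]
    have h3 := hent (e ⟨(e.symm ⟨i, hi⟩ : Set G) * (e.symm ⟨j, hj⟩ : Set G), hC _ (e.symm _).2 _ (e.symm _).2⟩) ⟨k, hk⟩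
    have h4 := hent ⟨i, hi⟩ (e ⟨(e.symm ⟨j, hj⟩ : Set G) * (e.symm ⟨k, hk⟩ : Set G), hC _ (e.symm _).2 _ (e.symm _).2⟩)
    simp only at h3 h4
    rw [h3, h4]
    simp [mul_assoc]
  · rw [hlen]
    intro i hi j hj hij
    simp only [Set.mem_ofPred_eq] at hi hj
    have h1 := hφ ⟨i, hi⟩
    have h2 := hφ ⟨j, hj⟩
    simp only at h1 h2
    rw [h1, h2] at hij
    have := e.symm.injective (Subtype.ext hij)
    exact congrArg Fin.val this
  · rw [hlen]
    intro i hi j hj
    exact hφe ⟨i, hi⟩ ⟨j, hj⟩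
  · intro s hs
    rw [hlen, hidx s hs]
    refine ⟨Fin.is_lt _, ?_⟩
    rw [hφ]
    simp
  · intro s hs t ht
    rw [hidx s hs, hidx t ht, hidx _ (hC s hs t ht), hent]
    simp

/-- From sets satisfying the equations to a table satisfying the word equations. -/
lemma table_of_eqs {G : Type*} [Group G] [Finite G] (C : Set (Set G))
    (hC : ∀ x ∈ C, ∀ y ∈ C, x * y ∈ C) {N tgt : ℕ} {R : List (ℕ × ℕ × ℕ)} (hN : 0 < N)
    (htgt : tgt < N)
    (hR : ∀ t ∈ R, t.1 < N ∧ t.2.1 < N ∧ t.2.2 < N) {e0 f0 e1 f1 : Set G} {a b : ℕ → Set G}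
    (h : Eqs R N tgt e0 f0 e1 f1 a b)
    (he0 : e0 ∈ C) (hf0 : f0 ∈ C) (he1 : e1 ∈ C) (hf1 : f1 ∈ C) (ha : ∀ x < N, a x ∈ C)
    (hb : ∀ x < N, b x ∈ C) :
    ∃ (T : List (List ℕ)) (A : List ℕ), T.length = C.ncard ∧ IsSemigroupTable T ∧
      TableEmbeds T G ∧ A.length = 2 * N + 4 ∧ (∀ x ∈ A, x < T.length) ∧
      (∀ e ∈ eqList N R, ev T A e.1 = ev T A e.2) ∧
      ev T A [4 + 2 * tgt, 0, 1] ≠ ev T A [4, 0, 1] := by
  obtain ⟨T, φ, idx, hlen, hT, hinj, hφ, hidx, hmul⟩ := exists_table C hC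
  let γ : ℕ → Set G := gen e0 f0 e1 f1 a b
  have hγ : ∀ g < 2 * N + 4, γ g ∈ C := by
    intro g hg
    match g with
    | 0 => exact he0
    | 1 => exact hf0
    | 2 => exact he1
    | 3 => exact hf1
    | n + 4 =>
      simp only [γ, gen]
      split_ifs
      · exact ha _ (by omega)
      · exact hb _ (by omega)
  let A : List ℕ := (List.range (2 * N + 4)).map fun g => idx (γ g)
  have hA : ∀ g < 2 * N + 4, A.getD g 0 = idx (γ g) := by
    intro g hg
    simp [A, List.getD_eq_getElem?_getD, hg]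
  have hfold : ∀ (w : List ℕ), (∀ g ∈ w, g < 2 * N + 4) → ∀ s ∈ C,
      w.foldl (fun acc x => acc * γ x) s ∈ C ∧
      w.foldl (fun acc x => entry T acc (A.getD x 0)) (idx s) =
        idx (w.foldl (fun acc x => acc * γ x) s) := by
    intro w
    induction w with
    | nil => intro _ s hs; exact ⟨hs, rfl⟩
    | cons g w ih =>
      intro hw s hs
      have hg := hγ g (hw g (by simp))
      simp only [List.foldl_cons]
      rw [hA g (hw g (by simp)), hmul s hs _ hg]
      exact ih (fun g' hg' => hw g' (by simp [hg'])) _ (hC s hs _ hg)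
  have hev : ∀ (g : ℕ) (w : List ℕ), (∀ x ∈ g :: w, x < 2 * N + 4) →
      w.foldl (fun acc x => acc * γ x) (γ g) ∈ C ∧
      ev T A (g :: w) = idx (w.foldl (fun acc x => acc * γ x) (γ g)) := by
    intro g w hw
    have := hfold w (fun x hx => hw x (by simp [hx])) (γ g) (hγ g (hw g (by simp)))
    refine ⟨this.1, ?_⟩
    rw [← this.2, ← hA g (hw g (by simp))]
    rfl
  have ga : ∀ x, γ (4 + 2 * x) = a x := gen_a e0 f0 e1 f1 a b
  have gb : ∀ x, γ (5 + 2 * x) = b x := gen_b e0 f0 e1 f1 a b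
  have g4 : γ 4 = a 0 := ga 0
  have g5 : γ 5 = b 0 := gb 0
  have g0 : γ 0 = e0 := rfl
  have g1 : γ 1 = f0 := rfl
  have g2 : γ 2 = e1 := rfl
  have g3 : γ 3 = f1 := rfl
  refine ⟨T, A, hlen, hT, ⟨φ, hinj, hφ⟩, by simp [A], ?_, ?_, ?_⟩
  · intro x hx
    simp only [A, List.mem_map, List.mem_range] at hx
    obtain ⟨g, hg, rfl⟩ := hx
    exact (hidx _ (hγ g hg)).1
  · intro e he
    simp only [eqList, List.mem_append, List.mem_flatMap, List.mem_range, List.mem_map,
      List.mem_cons, List.not_mem_nil, or_false] at he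
    rcases he with ((rfl | rfl | rfl | rfl) | ⟨x, hx, rfl | rfl⟩) | ⟨t, ht, rfl⟩
    · simp only
      rw [(hev 0 [0] (by simp)).2, (hev 0 [] (by simp)).2]
      simp only [List.foldl_cons, List.foldl_nil, g0, h.he0]
    · simp only
      rw [(hev 1 [1] (by simp)).2, (hev 1 [] (by simp)).2]
      simp only [List.foldl_cons, List.foldl_nil, g1, h.hf0]
    · simp only
      rw [(hev 2 [2] (by simp)).2, (hev 2 [] (by simp)).2]
      simp only [List.foldl_cons, List.foldl_nil, g2, h.he1]
    · simp only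
      rw [(hev 3 [3] (by simp)).2, (hev 3 [] (by simp)).2]
      simp only [List.foldl_cons, List.foldl_nil, g3, h.hf1]
    · simp only
      rw [(hev _ [0, 1, 5 + 2 * x] (by simp; omega)).2, (hev 2 [3] (by simp)).2]
      simp only [List.foldl_cons, List.foldl_nil, g0, g1, g2, g3, ga, gb, h.hab x hx]
    · simp only
      rw [(hev _ [3, 2, 4 + 2 * x] (by simp; omega)).2, (hev 1 [0] (by simp)).2]
      simp only [List.foldl_cons, List.foldl_nil, g0, g1, g2, g3, ga, gb, h.hba x hx]
    · have := hR t ht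
      simp only
      rw [(hev _ [0, 1, 5 + 2 * t.2.1] (by simp; omega)).2,
        (hev _ [0, 1, 5] (by simp; omega)).2]
      simp only [List.foldl_cons, List.foldl_nil, g0, g1, g5, ga, gb, h.hR t ht]
  · intro heq
    have h1 := hev (4 + 2 * tgt) [0, 1] (by simp; omega)
    have h2 := hev 4 [0, 1] (by simp; omega)
    rw [h1.2, h2.2] at heq
    have h3 := congrArg φ heq
    rw [(hidx _ h1.1).2, (hidx _ h2.1).2] at h3
    simp only [List.foldl_cons, List.foldl_nil, g0, g1, g4, ga] at h3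
    exact h.hne h3

/-! ### Computability -/

section computability

open Primrec

variable {β : Type*} [Primcodable β]

lemma all_lt {f : β → ℕ} (hf : Primrec f) {p : ℕ × β → Prop} (hp : PrimrecPred p) :
    PrimrecPred fun y => ∀ x < f y, p (x, y) := by
  have h1 : PrimrecRel fun (x : ℕ) (y : β) => p (x, y) := hp
  have h2 := h1.forall_mem_list
  exact (h2.comp (Primrec.list_range.comp hf) Primrec.id).of_eq (by simp)

lemma entry_primrec {f : β → List (List ℕ)} {g k : β → ℕ} (hf : Primrec f) (hg : Primrec g)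
    (hk : Primrec k) : Primrec fun y => entry (f y) (g y) (k y) := by
  unfold entry
  exact (Primrec.list_getD 0).comp ((Primrec.list_getD []).comp hf hg) hk

lemma isSemigroupTable_primrec : PrimrecPred IsSemigroupTable := by
  have hl : Primrec (fun T : List (List ℕ) => T.length) := Primrec.list_length
  apply PrimrecPred.and
  · have h1 : PrimrecRel fun (r : List ℕ) (T : List (List ℕ)) => r.length = T.length :=
      Primrec.eq.comp (Primrec.list_length.comp Primrec.fst)
        (Primrec.list_length.comp Primrec.snd)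
    exact PrimrecPred.comp h1.forall_mem_list (Primrec.pair Primrec.id Primrec.id)
  apply PrimrecPred.and
  · refine all_lt hl (p := fun q : ℕ × List (List ℕ) => ∀ j < q.2.length,
      entry q.2 q.1 j < q.2.length) ?_
    refine all_lt (hl.comp snd) (p := fun q : ℕ × (ℕ × List (List ℕ)) =>
      entry q.2.2 q.2.1 q.1 < q.2.2.length) ?_
    exact Primrec.nat_lt.comp (entry_primrec (snd.comp snd) (fst.comp snd) fst)
      (hl.comp (snd.comp snd))
  · refine all_lt hl (p := fun q : ℕ × List (List ℕ) => ∀ j < q.2.length, ∀ k < q.2.length,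
      entry q.2 (entry q.2 q.1 j) k = entry q.2 q.1 (entry q.2 j k)) ?_
    refine all_lt (hl.comp snd) (p := fun q : ℕ × (ℕ × List (List ℕ)) => ∀ k < q.2.2.length,
      entry q.2.2 (entry q.2.2 q.2.1 q.1) k = entry q.2.2 q.2.1 (entry q.2.2 q.1 k)) ?_
    refine all_lt (hl.comp (snd.comp snd)) (p := fun q : ℕ × (ℕ × (ℕ × List (List ℕ))) =>
      entry q.2.2.2 (entry q.2.2.2 q.2.2.1 q.2.1) q.1 =
        entry q.2.2.2 q.2.2.1 (entry q.2.2.2 q.2.1 q.1)) ?_
    have hT : Primrec (fun q : ℕ × (ℕ × (ℕ × List (List ℕ))) => q.2.2.2) :=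
      snd.comp (snd.comp snd)
    have hi : Primrec (fun q : ℕ × (ℕ × (ℕ × List (List ℕ))) => q.2.2.1) :=
      fst.comp (snd.comp snd)
    have hj : Primrec (fun q : ℕ × (ℕ × (ℕ × List (List ℕ))) => q.2.1) := fst.comp snd
    exact Primrec.eq.comp (entry_primrec hT (entry_primrec hT hi hj) fst)
      (entry_primrec hT hi (entry_primrec hT hj fst))

lemma primrec_lin {f : β → ℕ} (hf : Primrec f) (k : ℕ) : Primrec fun y => k + 2 * f y :=
  Primrec.nat_add.comp (Primrec.const k) (Primrec.nat_mul.comp (Primrec.const 2) hf)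

lemma cons₁ {α : Type*} [Primcodable α] {f : β → α} {g : β → List α} (hf : Primrec f)
    (hg : Primrec g) : Primrec fun y => f y :: g y := Primrec.list_cons.comp hf hg

lemma primrec_eqList : Primrec₂ eqList := by
  refine Primrec.list_append.comp (Primrec.list_append.comp (Primrec.const _) ?_) ?_
  · refine Primrec.list_flatMap (Primrec.list_range.comp fst) ?_
    have hx : Primrec fun p : (ℕ × List (ℕ × ℕ × ℕ)) × ℕ => p.2 := snd
    exact cons₁ (Primrec.pair (cons₁ (primrec_lin hx 4) (cons₁ (Primrec.const 0)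
      (cons₁ (Primrec.const 1) (cons₁ (primrec_lin hx 5) (Primrec.const [])))))
      (Primrec.const [2, 3])) (cons₁ (Primrec.pair (cons₁ (primrec_lin hx 5)
      (cons₁ (Primrec.const 3) (cons₁ (Primrec.const 2) (cons₁ (primrec_lin hx 4)
      (Primrec.const []))))) (Primrec.const [1, 0])) (Primrec.const []))
  · refine Primrec.list_map snd ?_
    have h1 : Primrec fun p : (ℕ × List (ℕ × ℕ × ℕ)) × (ℕ × ℕ × ℕ) => p.2.1 := fst.comp snd
    have h2 : Primrec fun p : (ℕ × List (ℕ × ℕ × ℕ)) × (ℕ × ℕ × ℕ) => p.2.2.1 :=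
      fst.comp (snd.comp snd)
    have h3 : Primrec fun p : (ℕ × List (ℕ × ℕ × ℕ)) × (ℕ × ℕ × ℕ) => p.2.2.2 :=
      snd.comp (snd.comp snd)
    exact Primrec.pair (cons₁ (primrec_lin h3 4) (cons₁ (Primrec.const 0)
      (cons₁ (Primrec.const 1) (cons₁ (primrec_lin h2 5) (Primrec.const [])))))
      (cons₁ (primrec_lin h1 4) (Primrec.const [0, 1, 5]))

lemma primrec_bnd : Primrec bnd := by
  have h1 : Primrec fun N : ℕ => 2 * N + 1 :=
    Primrec.nat_add.comp (Primrec.nat_mul.comp (Primrec.const 2) Primrec.id) (Primrec.const 1)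
  have h2 : Primrec fun N : ℕ => 24 * ((2 * N + 1) * ((2 * N + 1) * (2 * N + 1))) + 2 :=
    Primrec.nat_add.comp (Primrec.nat_mul.comp (Primrec.const 24)
      (Primrec.nat_mul.comp h1 (Primrec.nat_mul.comp h1 h1))) (Primrec.const 2)
  refine h2.of_eq fun N => ?_
  unfold bnd
  ring

end computability

/-! ### Changing the universe of a finite group -/

/-- An auxiliary `n`-element type in any universe. -/
def Cop (n : ℕ) : Type u := ULift.{u} (Fin n)

instance (n : ℕ) : Finite (Cop.{u} n) := by unfold Cop; infer_instance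

lemma tableEmbeds_transport {T : List (List ℕ)} {G G' : Type*} [Group G] [Group G']
    (e : G ≃* G') (h : TableEmbeds T G) : TableEmbeds T G' := by
  obtain ⟨φ, h1, h2⟩ := h
  refine ⟨fun s => e '' φ s, ?_, ?_⟩
  · intro s hs t ht hst
    exact h1 hs ht (e.injective.image_injective hst)
  · intro s hs t ht
    simp only
    rw [h2 s hs t ht, Set.image_mul]

lemma change_universe {T : List (List ℕ)} {G : Type} [Group G] [Finite G]
    (h : TableEmbeds T G) : ∃ (G : Type u) (_ : Group G) (_ : Finite G), TableEmbeds T G := by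
  let e : Cop.{u} (Nat.card G) ≃ G := Equiv.ulift.trans (Finite.equivFin G).symm
  let _ := e.group
  exact ⟨Cop.{u} (Nat.card G), inferInstance, inferInstance,
    tableEmbeds_transport e.mulEquiv.symm h⟩

/-! ### The main theorem -/

lemma computablePred_and {α : Type*} [Primcodable α] {p q : α → Prop} (hp : ComputablePred p)
    (hq : ComputablePred q) : ComputablePred fun a => p a ∧ q a := by
  obtain ⟨f, hf, rfl⟩ := ComputablePred.computable_iff.1 hp
  obtain ⟨g, hg, rfl⟩ := ComputablePred.computable_iff.1 hq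
  refine ComputablePred.computable_iff.2 ⟨fun a => f a && g a, ?_, ?_⟩
  · exact (Primrec.and.to_comp).comp hf hg
  · funext a
    simp

/-- No computable set of tables separates the semigroup tables that embed into `P(G)` for some
finite group `G` from the semigroup tables that do not embed into `P(G)` for any periodic `G`. -/
theorem inseparable (P : List (List ℕ) → Prop) (hP : ComputablePred P)
    (hP1 : ∀ T, IsSemigroupTable T →
      (∃ (G : Type u) (_ : Group G) (_ : Finite G), TableEmbeds T G) → P T)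
    (hP2 : ∀ T, IsSemigroupTable T → P T →
      ∃ (G : Type u) (_ : Group G), (∀ g : G, IsOfFinOrder g) ∧ TableEmbeds T G) : False := by
  obtain ⟨R, N, tgt, hRc, hNc, htc, hb, hins⟩ := exists_systems.{u}
  have hP' : ComputablePred fun T => P T ∧ IsSemigroupTable T :=
    computablePred_and hP isSemigroupTable_primrec.computablePred
  have hE : Computable fun n => eqList (N n) (R n) := by
    have := primrec_eqList.to_comp
    exact this.comp hNc hRc
  have hu : Computable fun n => [4 + 2 * tgt n, 0, 1] := by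
    have h1 : Primrec fun x : ℕ => [4 + 2 * x, 0, 1] :=
      cons₁ (primrec_lin Primrec.id 4) (Primrec.const [0, 1])
    exact h1.to_comp.comp htc
  have hv : Computable fun _ : ℕ => ([4, 0, 1] : List ℕ) := Computable.const _
  have hK : Computable fun n => bnd (N n) := primrec_bnd.to_comp.comp hNc
  have hlen : Computable fun n => 2 * N n + 4 := by
    have h1 : Primrec fun x : ℕ => 2 * x + 4 :=
      Primrec.nat_add.comp (Primrec.nat_mul.comp (Primrec.const 2) Primrec.id) (Primrec.const 4)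
    exact h1.to_comp.comp hNc
  have hD := search (fun T => P T ∧ IsSemigroupTable T) hP' (fun n => eqList (N n) (R n)) hE
    (fun n => [4 + 2 * tgt n, 0, 1]) (fun _ => [4, 0, 1]) hu hv (fun n => bnd (N n))
    (fun n => 2 * N n + 4) hK hlen
  obtain ⟨n, hn⟩ := hins _ hD
  obtain ⟨hN0, htN, hRN⟩ := hb n
  rcases hn with ⟨hnD, Γ, iΓ, iF, f, hf, hft⟩ | ⟨hDn, hbad⟩
  · -- the good case
    apply hnD
    obtain ⟨G, iG, iGF, e0, f0, e1, f1, a, b, C, hEq, hC, h1, h2, h3, h4, h5, h6, hcard⟩ :=
      realization (R n) (N n) (tgt n) f hf hft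
    obtain ⟨T, A, hl, hT, hemb, hAl, hAT, hev, hne⟩ :=
      table_of_eqs C hC hN0 htN hRN hEq h1 h2 h3 h4 h5 h6
    have hlK : T.length ≤ bnd (N n) := hl ▸ hcard
    refine ⟨T, A, ⟨hlK, ?_⟩, ⟨hAl.le, hAT⟩, ⟨hP1 T hT (change_universe hemb), hT⟩, hev, hne⟩
    intro r hr
    have hrl := hT.1 r hr
    refine ⟨by omega, ?_⟩
    intro x hx
    obtain ⟨i, hi, rfl⟩ := List.getElem_of_mem hr
    obtain ⟨j, hj, rfl⟩ := List.getElem_of_mem hx
    have := hT.2.1 i hi j (by omega)
    have h7 : entry T i j = T[i][j] := by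
      simp [entry, List.getD_eq_getElem?_getD, hi, hj]
    omega
  · -- the bad case
    obtain ⟨T, A, ⟨_, _⟩, ⟨_, hAT⟩, ⟨hPT, hT⟩, hev, hne⟩ := hDn
    obtain ⟨G, iG, hG, φ, hinj, hφ⟩ := hP2 T hT hPT
    have hpos : 0 < T.length := by
      rcases Nat.eq_zero_or_pos T.length with h0 | h0
      · exfalso
        have hA : A = [] := by
          rcases A with _ | ⟨x, A⟩
          · rfl
          · have := hAT x (by simp)
            omega
        have hT0 : T = [] := List.length_eq_zero_iff.1 h0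
        apply hne
        subst hT0 hA
        simp [ev, entry]
      · exact h0
    have hA : ∀ g, A.getD g 0 < T.length := by
      intro g
      by_cases hg : g < A.length
      · rw [List.getD_eq_getElem _ _ hg]
        exact hAT _ (List.getElem_mem hg)
      · rw [List.getD_eq_default _ _ (by omega)]
        exact hpos
    have hEq := eqs_of_table hinj hT.2.1 hφ hA hev hne
    obtain ⟨H, iH, f, hf, hft⟩ := hidden hG (R n) (N n) (tgt n) hN0 htN hRN _ _ _ _ _ _ hEq
    exact hft (hbad H iH f hf)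

end Pool.Agent.Helper91.SG
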