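import Pool.Agent.Helper91.SG.Defs

namespace Pool.Agent.Helper91.SG

section m2

variable {Q K A : Type} {δ : Q → Cmd Q K A}

/-- The congruence of the semigroup system. -/
def m2_E (δ : Q → Cmd Q K A) (u v : List (Letter Q K A)) : Prop :=
  Relation.EqvGen (Rw (Rule δ)) u v

lemma m2_refl (u : List (Letter Q K A)) : m2_E δ u u := Relation.EqvGen.refl u

lemma m2_symm {u v : List (Letter Q K A)} (h : m2_E δ u v) : m2_E δ v u :=
  Relation.EqvGen.symm _ _ h

lemma m2_trans {u v w : List (Letter Q K A)} (h : m2_E δ u v) (h' : m2_E δ v w) :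
    m2_E δ u w :=
  Relation.EqvGen.trans _ _ _ h h'

lemma m2_congr {u v : List (Letter Q K A)} (p s : List (Letter Q K A)) (h : m2_E δ u v) :
    m2_E δ (p ++ u ++ s) (p ++ v ++ s) := by
  unfold m2_E at h ⊢
  induction h with
  | rel x y hxy =>
    apply Relation.EqvGen.rel
    obtain ⟨u, v, r, a, b, hr⟩ := hxy
    have := Rw.mk (B := Rule δ) (p ++ u) (v ++ s) r a b hr
    simpa using this
  | refl x => exact Relation.EqvGen.refl _
  | symm x y _ ih => exact Relation.EqvGen.symm _ _ ih
  | trans x y z _ _ ih1 ih2 => exact Relation.EqvGen.trans _ _ _ ih1 ih2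

lemma m2_left {u v : List (Letter Q K A)} (p : List (Letter Q K A)) (h : m2_E δ u v) :
    m2_E δ (p ++ u) (p ++ v) := by
  simpa using m2_congr p [] h

lemma m2_right {u v : List (Letter Q K A)} (s : List (Letter Q K A)) (h : m2_E δ u v) :
    m2_E δ (u ++ s) (v ++ s) := by
  simpa using m2_congr [] s h

lemma m2_rule {r s s' : Letter Q K A} (h : Rule δ r s s') : m2_E δ [r] [s, s'] :=
  Relation.EqvGen.rel _ _ (Rw.mk (B := Rule δ) [] [] r s s' h)

lemma m2_comm {x y : Option (K × A)} (h : x.map Prod.fst ≠ y.map Prod.fst) :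
    m2_E δ [.lt x, .lt y] [.lt y, .lt x] :=
  m2_trans (m2_symm (m2_rule (Rule.comm1 x y h))) (m2_rule (Rule.comm2 x y h))

/-- A letter can be moved across letters of other stacks. -/
lemma m2_move (x : Option (K × A)) (w : List (Letter Q K A))
    (h : ∀ l ∈ w, ∃ y : Option (K × A), l = .lt y ∧ x.map Prod.fst ≠ y.map Prod.fst) :
    m2_E δ (.lt x :: w) (w ++ [.lt x]) := by
  induction w with
  | nil => exact m2_refl _
  | cons l w ih =>
    obtain ⟨y, rfl, hy⟩ := h l (by simp)
    have h1 : m2_E δ ([.lt x, .lt y] ++ w) ([.lt y, .lt x] ++ w) := m2_right w (m2_comm hy)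
    have h2 : m2_E δ ([.lt y] ++ (.lt x :: w)) ([.lt y] ++ (w ++ [.lt x])) :=
      m2_left _ (ih (fun l hl => h l (List.mem_cons_of_mem _ hl)))
    simp only [List.cons_append, List.nil_append] at h1 h2 ⊢
    exact m2_trans h1 h2

lemma m2_tick (w : List (Letter Q K A)) (ks : List K) (z : K → List A)
    (hw : w = word ks z) : m2_E δ (.lt none :: w) (w ++ [.lt none]) := by
  apply m2_move
  intro l hl
  rw [hw, word, List.mem_flatMap] at hl
  obtain ⟨k, -, hk⟩ := hl
  rw [List.mem_map] at hk
  obtain ⟨a, -, rfl⟩ := hk
  exact ⟨some (k, a), rfl, by simp⟩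

lemma m2_word_congr (ks : List K) (z z' : K → List A) (h : ∀ k ∈ ks, z k = z' k) :
    (word ks z : List (Letter Q K A)) = word ks z' := by
  unfold word
  induction ks with
  | nil => rfl
  | cons k ks ih =>
    rw [List.flatMap_cons, List.flatMap_cons, h k (by simp),
      ih (fun k hk => h k (List.mem_cons_of_mem _ hk))]

lemma m2_word_append (ks ks' : List K) (z : K → List A) :
    (word (ks ++ ks') z : List (Letter Q K A)) = word ks z ++ word ks' z := by
  simp [word]

lemma m2_word_cons (k : K) (ks : List K) (z : K → List A) :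
    (word (k :: ks) z : List (Letter Q K A))
      = ((z k).map fun a => Letter.lt (some (k, a))) ++ word ks z := by
  simp [word]

/-- Pushing a letter. -/
lemma m2_push [DecidableEq K] (ks : List K) (hks : ks.Nodup) (hall : ∀ k, k ∈ ks)
    (z : K → List A) (k : K) (a : A) :
    m2_E δ (.lt (some (k, a)) :: word ks z) (word ks (Function.update z k (a :: z k))) := by
  obtain ⟨k1, k2, rfl⟩ := List.append_of_mem (hall k)
  rw [List.nodup_append] at hks
  obtain ⟨-, h2, h3⟩ := hks
  rw [List.nodup_cons] at h2
  have hk1 : k ∉ k1 := fun hk => h3 k hk k (by simp) rfl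
  have hk2 : k ∉ k2 := h2.1
  rw [m2_word_append, m2_word_append, m2_word_cons, m2_word_cons]
  have e1 : (word k1 (Function.update z k (a :: z k)) : List (Letter Q K A)) = word k1 z := by
    apply m2_word_congr
    intro j hj
    rw [Function.update_of_ne]
    rintro rfl
    exact hk1 hj
  have e2 : (word k2 (Function.update z k (a :: z k)) : List (Letter Q K A)) = word k2 z := by
    apply m2_word_congr
    intro j hj
    rw [Function.update_of_ne]
    rintro rfl
    exact hk2 hj
  rw [e1, e2, Function.update_self, List.map_cons]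
  have h4 : m2_E δ (.lt (some (k, a)) :: word k1 z) (word k1 z ++ [.lt (some (k, a))]) := by
    apply m2_move
    intro l hl
    rw [word, List.mem_flatMap] at hl
    obtain ⟨j, hj, hl⟩ := hl
    rw [List.mem_map] at hl
    obtain ⟨b, -, rfl⟩ := hl
    refine ⟨some (j, b), rfl, ?_⟩
    simp only [Option.map_some, ne_eq, Option.some.injEq]
    rintro rfl
    exact hk1 hj
  have h5 := m2_right (((z k).map fun a => Letter.lt (some (k, a))) ++ word k2 z) h4
  simpa using h5

/-- The invariant is preserved by a step. -/
lemma m2_step [DecidableEq K] (ks : List K) (hks : ks.Nodup) (hall : ∀ k, k ∈ ks)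
    (q q' : Q) (z z' : K → List A) (h : step δ (q, z) = some (q', z')) :
    m2_E δ (.st q :: word ks z) (.st q' :: (word ks z' ++ [.lt none])) := by
  unfold step at h
  simp only at h
  cases hq : δ q with
  | halt => rw [hq] at h; simp at h
  | jump p =>
    rw [hq] at h
    simp only [Option.some.injEq, Prod.mk.injEq] at h
    obtain ⟨rfl, rfl⟩ := h
    have h1 := m2_right (word ks z) (m2_rule (Rule.jump (δ := δ) q p hq))
    have h2 := m2_left [Letter.st p] (m2_tick (δ := δ) (word ks z) ks z rfl)
    simp only [List.cons_append, List.nil_append] at h1 h2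
    exact m2_trans h1 h2
  | push k a p =>
    rw [hq] at h
    simp only [Option.some.injEq, Prod.mk.injEq] at h
    obtain ⟨rfl, rfl⟩ := h
    have h1 := m2_right (word ks z) (m2_rule (Rule.push2 (δ := δ) q k a p hq))
    have h2 := m2_right (.lt none :: word ks z) (m2_rule (Rule.push1 (δ := δ) q k a p hq))
    have h3 := m2_left [Letter.st p, .lt (some (k, a))] (m2_tick (δ := δ) (word ks z) ks z rfl)
    have h4 := m2_congr [Letter.st p] [.lt none] (m2_push (δ := δ) ks hks hall z k a)
    simp only [List.cons_append, List.nil_append] at h1 h2 h3 h4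
    exact m2_trans h1 (m2_trans h2 (m2_trans h3 h4))
  | pop k f =>
    rw [hq] at h
    simp only at h
    cases hz : z k with
    | nil => rw [hz] at h; simp at h
    | cons a l =>
      rw [hz] at h
      simp only [Option.some.injEq, Prod.mk.injEq] at h
      obtain ⟨rfl, rfl⟩ := h
      have h0 := m2_push (δ := δ) ks hks hall (Function.update z k l) k a
      have e0 : Function.update (Function.update z k l) k
          (a :: Function.update z k l k) = z := by
        rw [Function.update_self, Function.update_idem, ← hz, Function.update_eq_self]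
      rw [e0] at h0
      have h1 := m2_left [Letter.st q] (m2_symm h0)
      have h2 := m2_right (word ks (Function.update z k l))
        (m2_symm (m2_rule (Rule.pop1 (δ := δ) q k f a hq)))
      have h3 := m2_right (word ks (Function.update z k l))
        (m2_rule (Rule.pop2 (δ := δ) q k f a hq))
      have h4 := m2_left [Letter.st (f a)]
        (m2_tick (δ := δ) (word ks (Function.update z k l)) ks _ rfl)
      simp only [List.cons_append, List.nil_append] at h1 h2 h3 h4
      exact m2_trans h1 (m2_trans h2 (m2_trans h3 h4))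

end m2

/-- Bad direction: a run of the machine gives an equality of words. -/
theorem sg_bad {Q K A : Type} [DecidableEq K] (δ : Q → Cmd Q K A) (ks : List K)
    (hks : ks.Nodup) (hall : ∀ k, k ∈ ks) (q0 q : Q) (z0 z : K → List A)
    (h : Relation.ReflTransGen (fun x y => step δ x = some y) (q0, z0) (q, z)) :
    ∃ w : List (Letter Q K A),
      Relation.EqvGen (Rw (Rule δ)) (Letter.st q0 :: word ks z0) (Letter.st q :: w) := by
  have key : ∀ c : Q × (K → List A),
      Relation.ReflTransGen (fun x y => step δ x = some y) (q0, z0) c →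
      ∃ m : ℕ, m2_E δ (Letter.st q0 :: word ks z0)
        (Letter.st c.1 :: (word ks c.2 ++ List.replicate m (Letter.lt none))) := by
    intro c hc
    induction hc with
    | refl => exact ⟨0, by simpa using m2_refl _⟩
    | @tail b c _ hbc ih =>
      obtain ⟨m, hm⟩ := ih
      refine ⟨m + 1, ?_⟩
      obtain ⟨q1, z1⟩ := b
      obtain ⟨q2, z2⟩ := c
      have h1 := m2_right (List.replicate m (Letter.lt none)) (m2_step ks hks hall q1 q2 z1 z2 hbc)
      refine m2_trans hm ?_
      simpa [List.replicate_succ] using h1
  obtain ⟨m, hm⟩ := key (q, z) h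
  exact ⟨_, hm⟩

end Pool.Agent.Helper91.SG
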