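import Pool.Agent.Helper91.SG.Defs

namespace Pool.Agent.Helper91.SG

namespace M3

section pf

variable {ι : Type} [DecidableEq ι]

/-- The matrix of a partial function. -/
def Mf (f : ι → Option ι) : Matrix ι ι (ZMod 2) := fun i j => if f j = some i then 1 else 0

theorem Mf_aux [Fintype ι] (f : ι → Option ι) (i : ι) (o : Option ι) :
    (∑ x, (if f x = some i then (1 : ZMod 2) else 0) * if o = some x then 1 else 0) =
      if o.bind f = some i then 1 else 0 := by
  cases o with
  | none => simp
  | some k =>
    rw [Finset.sum_eq_single k]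
    · simp
    · intro b _ hb
      have : (some k : Option ι) ≠ some b := fun h => hb (Option.some.inj h).symm
      simp [this]
    · intro h; exact absurd (Finset.mem_univ k) h

theorem Mf_mul [Fintype ι] (f g : ι → Option ι) :
    Mf f * Mf g = Mf (fun j => (g j).bind f) := by
  ext i j
  simp only [Matrix.mul_apply, Mf]
  exact Mf_aux f i (g j)

theorem Mf_zero (f : ι → Option ι) (h : ∀ j, f j = none) : Mf f = 0 := by
  ext i j
  simp [Mf, h]

theorem Mf_one : Mf (fun j : ι => some j) = 1 := by
  ext i j
  simp only [Mf, Matrix.one_apply, Option.some.injEq]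
  by_cases h : i = j
  · simp [h]
  · have : ¬ (j = i) := fun h' => h h'.symm
    simp [h, this]

end pf

variable {Q K A : Type} [DecidableEq K]

/-- Push a stack letter, or the clock letter. -/
def psh : Option (K × A) → (K → List A) × ℕ → (K → List A) × ℕ
  | none, t => (t.1, t.2 + 1)
  | some p, t => (Function.update t.1 p.1 (p.2 :: t.1 p.1), t.2)

/-- Iterated steps. -/
def iter (δ : Q → Cmd Q K A) : ℕ → Q × (K → List A) → Option (Q × (K → List A))
  | 0, x => some x
  | n + 1, x => (step δ x).bind (iter δ n)

theorem exists_iter (δ : Q → Cmd Q K A) (x c : Q × (K → List A))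
    (h : Relation.ReflTransGen (fun x y => step δ x = some y) x c) :
    ∃ n, iter δ n x = some c := by
  induction h using Relation.ReflTransGen.head_induction_on with
  | refl => exact ⟨0, rfl⟩
  | head h _ ih =>
    obtain ⟨n, hn⟩ := ih
    exact ⟨n + 1, by simp [iter, h, hn]⟩

/-- Acceptance: the configuration reaches `c` in exactly `T - m` steps. -/
def Acc (δ : Q → Cmd Q K A) (c : Q × (K → List A)) (T : ℕ) (q : Q) (t : (K → List A) × ℕ) :
    Prop :=
  t.2 ≤ T ∧ iter δ (T - t.2) (q, t.1) = some c

theorem acc_step (δ : Q → Cmd Q K A) (c : Q × (K → List A)) (T : ℕ) (hc : step δ c = none)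
    (q q' : Q) (z z' : K → List A) (m : ℕ) (h : step δ (q, z) = some (q', z')) :
    Acc δ c T q (z, m) ↔ Acc δ c T q' (z', m + 1) := by
  unfold Acc
  simp only
  constructor
  · rintro ⟨h1, h2⟩
    rcases Nat.lt_or_ge m T with hlt | hge
    · obtain ⟨n, hn⟩ : ∃ n, T - m = n + 1 := ⟨T - m - 1, by omega⟩
      rw [hn] at h2
      simp only [iter, h, Option.bind_some] at h2
      have : T - (m + 1) = n := by omega
      rw [this]
      exact ⟨hlt, h2⟩
    · have : T - m = 0 := by omega
      rw [this] at h2
      simp only [iter, Option.some.injEq] at h2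
      rw [h2, hc] at h
      cases h
  · rintro ⟨h1, h2⟩
    refine ⟨by omega, ?_⟩
    obtain ⟨n, hn⟩ : ∃ n, T - m = n + 1 := ⟨T - m - 1, by omega⟩
    rw [hn]
    have : T - (m + 1) = n := by omega
    rw [this] at h2
    simp only [iter, h, Option.bind_some]
    exact h2

theorem step_len (δ : Q → Cmd Q K A) (x y : Q × (K → List A)) (h : step δ x = some y) (k : K) :
    (x.2 k).length ≤ (y.2 k).length + 1 := by
  unfold step at h
  split at h
  · cases h
  · cases h; simp
  · rename_i k' a q' _
    cases h
    by_cases hk : k = k'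
    · subst hk; simp; omega
    · simp [Function.update_of_ne hk]
  · rename_i k' f _
    split at h
    · cases h
    · rename_i a l hl
      cases h
      by_cases hk : k = k'
      · subst hk; simp [hl]
      · simp [Function.update_of_ne hk]

theorem iter_len (δ : Q → Cmd Q K A) (c : Q × (K → List A)) (n : ℕ) :
    ∀ x : Q × (K → List A), iter δ n x = some c → ∀ k,
      (x.2 k).length ≤ (c.2 k).length + n := by
  induction n with
  | zero =>
    intro x h k
    simp only [iter, Option.some.injEq] at h
    subst h
    simp
  | succ n ih =>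
    intro x h k
    simp only [iter] at h
    cases hs : step δ x with
    | none => rw [hs] at h; cases h
    | some y =>
      rw [hs] at h
      simp only [Option.bind_some] at h
      have h1 := ih y h k
      have h2 := step_len δ x y hs k
      omega

/-- The bounded configurations. -/
def Cf (K A : Type) (Bd : ℕ) : Set ((K → List A) × ℕ) :=
  {t | (∀ k, (t.1 k).length ≤ Bd) ∧ t.2 ≤ Bd}

theorem cf_finite [Finite K] [Finite A] (Bd : ℕ) : (Cf K A Bd).Finite := by
  have h1 : Set.Finite {l : List A | l.length ≤ Bd} := List.finite_length_le A Bd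
  have h2 : Set.Finite (Set.pi Set.univ fun _ : K => {l : List A | l.length ≤ Bd}) :=
    Set.Finite.pi' (fun _ => h1) |>.subset (fun z hz k => by simpa using hz k (Set.mem_univ k))
  have h3 : Set.Finite {m : ℕ | m ≤ Bd} := Set.finite_le_nat Bd
  refine (h2.prod h3).subset ?_
  rintro ⟨z, m⟩ ⟨hz, hm⟩
  exact ⟨fun k _ => hz k, hm⟩

theorem psh_mem (Bd : ℕ) (x : Option (K × A)) (t : (K → List A) × ℕ)
    (h : psh x t ∈ Cf K A Bd) : t ∈ Cf K A Bd := by
  obtain ⟨h1, h2⟩ := h
  cases x with
  | none =>
    simp only [psh] at h1 h2
    exact ⟨h1, by omega⟩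
  | some p =>
    simp only [psh] at h1 h2
    refine ⟨fun k => ?_, h2⟩
    have := h1 k
    by_cases hk : k = p.1
    · subst hk
      simp only [Function.update_self, List.length_cons] at this
      omega
    · rwa [Function.update_of_ne hk] at this

theorem psh_comm (x y : Option (K × A)) (h : x.map Prod.fst ≠ y.map Prod.fst)
    (t : (K → List A) × ℕ) : psh x (psh y t) = psh y (psh x t) := by
  cases x with
  | none =>
    cases y with
    | none => exact absurd rfl h
    | some p => rfl
  | some p =>
    cases y with
    | none => rfl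
    | some p' =>
      have hne : p.1 ≠ p'.1 := by
        intro h'
        apply h
        simp [h']
      simp only [psh]
      rw [Function.update_of_ne hne, Function.update_of_ne hne.symm,
        Function.update_comm hne]

open Classical in
/-- The partial function of a stack letter. -/
noncomputable def Fl (Bd : ℕ) (x : Option (K × A)) :
    Option (Cf K A Bd) → Option (Option (Cf K A Bd))
  | none => none
  | some t => if h : psh x t.1 ∈ Cf K A Bd then some (some ⟨psh x t.1, h⟩) else none

open Classical in
/-- The partial function of a state. -/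
noncomputable def Fs (Bd : ℕ) (δ : Q → Cmd Q K A) (c : Q × (K → List A)) (T : ℕ) (q : Q) :
    Option (Cf K A Bd) → Option (Option (Cf K A Bd))
  | none => none
  | some t => if Acc δ c T q t.1 then some none else none

/-- The partial functions of all letters. -/
noncomputable def F (Bd : ℕ) (δ : Q → Cmd Q K A) (c : Q × (K → List A)) (T : ℕ) :
    Letter Q K A → Option (Cf K A Bd) → Option (Option (Cf K A Bd))
  | .st q => Fs Bd δ c T q
  | .lt x => Fl Bd x
  | .pu q => match δ q with
    | .push k a q' => fun j => (Fl Bd (some (k, a)) j).bind (Fs Bd δ c T q')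
    | _ => fun _ => none
  | .pp q k a => fun j => (Fl Bd (some (k, a)) j).bind (Fs Bd δ c T q)
  | .cm x y => fun j => (Fl Bd y j).bind (Fl Bd x)

theorem F_rel (Bd : ℕ) (δ : Q → Cmd Q K A) (c : Q × (K → List A)) (T : ℕ)
    (hc : step δ c = none)
    (hBd : ∀ q t, Acc δ c T q t → t ∈ Cf K A Bd)
    (r s s' : Letter Q K A) (h : Rule δ r s s') :
    F Bd δ c T r = fun j => (F Bd δ c T s' j).bind (F Bd δ c T s) := by
  classical
  funext j
  cases h with
  | jump q q' h =>
    cases j with
    | none => rfl
    | some t =>
      obtain ⟨⟨z, m⟩, ht⟩ := t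
      have hs : step δ (q, z) = some (q', z) := by simp [step, h]
      have key := acc_step δ c T hc q q' z z m hs
      simp only [F, Fs, Fl, psh]
      by_cases hA : Acc δ c T q (z, m)
      · have hA' := key.1 hA
        have hm := hBd _ _ hA'
        simp [hA, hA', hm, Fs]
      · have hA' := mt key.2 hA
        rw [if_neg hA]
        by_cases hm : ((z, m + 1) : (K → List A) × ℕ) ∈ Cf K A Bd
        · simp [hm, Fs, hA']
        · simp [hm]
  | push1 q k a q' h =>
    simp only [F, h]
  | push2 q k a q' h =>
    cases j with
    | none => rfl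
    | some t =>
      obtain ⟨⟨z, m⟩, ht⟩ := t
      have hs : step δ (q, z) = some (q', Function.update z k (a :: z k)) := by simp [step, h]
      have key := acc_step δ c T hc q q' z _ m hs
      simp only [F, Fs, Fl, psh, h]
      by_cases hA : Acc δ c T q (z, m)
      · have hA' := key.1 hA
        have hm' := hBd _ _ hA'
        have hm := psh_mem Bd (some (k, a)) (z, m + 1) hm'
        simp [hA, hA', hm, hm', Fs, Fl, psh]
      · have hA' := mt key.2 hA
        rw [if_neg hA]
        by_cases hm : ((z, m + 1) : (K → List A) × ℕ) ∈ Cf K A Bd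
        · by_cases hm' : ((Function.update z k (a :: z k), m + 1) : (K → List A) × ℕ) ∈ Cf K A Bd
          · simp [hm, hm', Fs, Fl, psh, hA']
          · simp [hm, hm', Fs, Fl, psh]
        · simp [hm]
  | pop1 q k f a h =>
    simp only [F]
  | pop2 q k f a h =>
    cases j with
    | none => rfl
    | some t =>
      obtain ⟨⟨z, m⟩, ht⟩ := t
      have hs : step δ (q, Function.update z k (a :: z k)) = some (f a, z) := by
        simp [step, h]
      have key := acc_step δ c T hc q (f a) _ z m hs
      simp only [F, Fl, psh]
      by_cases hA : Acc δ c T q (Function.update z k (a :: z k), m)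
      · have hA' := key.1 hA
        have hm := hBd _ _ hA'
        have hm' := hBd _ _ hA
        simp [hA, hA', hm, hm', Fs]
      · have hA' := mt key.2 hA
        by_cases hm : ((z, m + 1) : (K → List A) × ℕ) ∈ Cf K A Bd
        · by_cases hm' : ((Function.update z k (a :: z k), m) : (K → List A) × ℕ) ∈ Cf K A Bd
          · simp [hm, hm', Fs, hA', hA]
          · simp [hm, hm', Fs, hA']
        · by_cases hm' : ((Function.update z k (a :: z k), m) : (K → List A) × ℕ) ∈ Cf K A Bd
          · simp [hm, hm', Fs, hA]
          · simp [hm, hm']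
  | comm1 x y h =>
    simp only [F]
  | comm2 x y h =>
    cases j with
    | none => rfl
    | some t =>
      obtain ⟨t, ht⟩ := t
      simp only [F, Fl]
      have hcomm := psh_comm x y h t
      by_cases hm : psh x (psh y t) ∈ Cf K A Bd
      · have hm' : psh y (psh x t) ∈ Cf K A Bd := by rw [← hcomm]; exact hm
        have h1 := psh_mem Bd _ _ hm
        have h2 := psh_mem Bd _ _ hm'
        simp [hm, hm', h1, h2, Fl, hcomm]
      · have hm' : ¬ psh y (psh x t) ∈ Cf K A Bd := by rw [← hcomm]; exact hm
        by_cases h1 : psh y t ∈ Cf K A Bd <;> by_cases h2 : psh x t ∈ Cf K A Bd <;>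
          simp [h1, h2, hm, hm', Fl]

theorem acc_rej (δ : Q → Cmd Q K A) (c : Q × (K → List A)) (T : ℕ) (qrej : Q)
    (hrej : δ qrej = .halt) (hcq : c.1 ≠ qrej) (t : (K → List A) × ℕ) :
    ¬ Acc δ c T qrej t := by
  rintro ⟨_, h⟩
  cases hn : T - t.2 with
  | zero =>
    rw [hn] at h
    simp only [iter, Option.some.injEq] at h
    exact hcq (by rw [← h])
  | succ n =>
    rw [hn] at h
    have : step δ (qrej, t.1) = none := by simp [step, hrej]
    simp [iter, this] at h

/-- The partial function of a word in the stack letters. -/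
noncomputable def Fw (Bd : ℕ) : List (Option (K × A)) →
    Option (Cf K A Bd) → Option (Option (Cf K A Bd))
  | [] => fun j => some j
  | x :: l => fun j => (Fw Bd l j).bind (Fl Bd x)

theorem Fw_apply (Bd : ℕ) (l : List (Option (K × A))) (t : (K → List A) × ℕ)
    (ht : t ∈ Cf K A Bd) (h : l.foldr psh t ∈ Cf K A Bd) :
    Fw Bd l (some ⟨t, ht⟩) = some (some ⟨l.foldr psh t, h⟩) := by
  induction l with
  | nil => rfl
  | cons x l ih =>
    have h' : l.foldr psh t ∈ Cf K A Bd := psh_mem Bd x _ h
    have h'' : psh x (l.foldr psh t) ∈ Cf K A Bd := h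
    simp only [Fw, ih h', Option.bind_some, Fl]
    rw [dif_pos h'']
    rfl

/-- The list of the stack letters of a tuple. -/
def wl (ks : List K) (z : K → List A) : List (Option (K × A)) :=
  ks.flatMap fun k => (z k).map fun a => some (k, a)

omit [DecidableEq K] in
theorem word_eq (ks : List K) (z : K → List A) :
    (word ks z : List (Letter Q K A)) = (wl ks z).map Letter.lt := by
  simp only [word, wl, List.map_flatMap, List.map_map]
  rfl

theorem foldr_one (k : K) (l : List A) (z : K → List A) (m : ℕ) :
    (l.map fun a => some (k, a)).foldr psh (z, m) = (Function.update z k (l ++ z k), m) := by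
  induction l with
  | nil => simp
  | cons a l ih =>
    simp only [List.map_cons, List.foldr_cons, ih, psh]
    simp

theorem foldr_wl (ks : List K) (hks : ks.Nodup) (z : K → List A) :
    (wl ks z).foldr psh (fun _ => [], 0) = (fun k => if k ∈ ks then z k else [], 0) := by
  induction ks with
  | nil => simp [wl]
  | cons k ks ih =>
    have hks' : ks.Nodup := (List.nodup_cons.1 hks).2
    have hk : k ∉ ks := (List.nodup_cons.1 hks).1
    have h1 : wl (k :: ks) z = ((z k).map fun a => some (k, a)) ++ wl ks z := by
      simp [wl]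
    rw [h1, List.foldr_append, ih hks', foldr_one]
    congr 1
    funext k'
    by_cases h : k' = k
    · subst h; simp [hk]
    · rw [Function.update_of_ne h]
      simp [h]

end M3

open M3 in
/-- Good direction: a run of the machine that stops outside `qrej` gives a finite ring in which
the relations hold, `qrej` is zero, and the word of the initial configuration is nonzero. -/
theorem sg_good {Q K A : Type} [DecidableEq K] [Finite K] [Finite A] [Finite Q]
    (δ : Q → Cmd Q K A) (ks : List K)
    (hks : ks.Nodup) (hall : ∀ k, k ∈ ks) (q0 qrej : Q) (hrej : δ qrej = .halt)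
    (z0 : K → List A) (c : Q × (K → List A))
    (h : Relation.ReflTransGen (fun x y => step δ x = some y) (q0, z0) c)
    (hc : step δ c = none) (hcq : c.1 ≠ qrej) :
    ∃ (R : Type) (_ : Ring R) (_ : Finite R) (ρ : Letter Q K A → R),
      (∀ r s s', Rule δ r s s' → ρ r = ρ s * ρ s') ∧ ρ (Letter.st qrej) = 0 ∧
      ((Letter.st q0 :: word ks z0).map ρ).prod ≠ 0 := by
  classical
  obtain ⟨T, hT⟩ := exists_iter δ _ _ h
  obtain ⟨B0, hB0⟩ : ∃ B0, ∀ k, (c.2 k).length ≤ B0 := by
    have := Fintype.ofFinite K
    exact ⟨Finset.univ.sup fun k => (c.2 k).length, fun k =>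
      Finset.le_sup (f := fun k => (c.2 k).length) (Finset.mem_univ k)⟩
  set Bd := B0 + T with hBddef
  have hBd : ∀ q t, Acc δ c T q t → t ∈ Cf K A Bd := by
    rintro q ⟨z, m⟩ ⟨h1, h2⟩
    simp only at h1 h2
    refine ⟨fun k => ?_, by simp only; omega⟩
    have h3 := iter_len δ c _ _ h2 k
    have h4 := hB0 k
    simp only at h3 ⊢
    omega
  have hfin : Finite (Cf K A Bd) := (cf_finite Bd).to_subtype
  have hft : Fintype (Option (Cf K A Bd)) := Fintype.ofFinite _
  refine ⟨Matrix (Option (Cf K A Bd)) (Option (Cf K A Bd)) (ZMod 2), inferInstance,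
    inferInstance, fun r => Mf (F Bd δ c T r), ?_, ?_, ?_⟩
  · intro r s s' hr
    rw [Mf_mul, ← F_rel Bd δ c T hc hBd r s s' hr]
  · apply Mf_zero
    intro j
    cases j with
    | none => rfl
    | some t =>
      simp only [F, Fs]
      rw [if_neg (acc_rej δ c T qrej hrej hcq t.1)]
  · have hprod : ∀ l : List (Option (K × A)),
        ((l.map (Letter.lt (Q := Q))).map fun r => Mf (F Bd δ c T r)).prod = Mf (Fw Bd l) := by
      intro l
      induction l with
      | nil => simp [Fw, Mf_one]
      | cons x l ih =>
        rw [List.map_cons, List.map_cons, List.prod_cons, ih, Mf_mul]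
        rfl
    rw [List.map_cons, List.prod_cons, word_eq, hprod, Mf_mul]
    have hz : (wl ks z0).foldr psh ((fun _ => [] : K → List A), 0) = (z0, 0) := by
      rw [foldr_wl ks hks z0]
      congr 1
      funext k
      simp [hall k]
    have hacc : Acc δ c T q0 (z0, 0) := ⟨Nat.zero_le _, hT⟩
    have hmem : ((z0, 0) : (K → List A) × ℕ) ∈ Cf K A Bd := hBd _ _ hacc
    have hmem' : (wl ks z0).foldr psh ((fun _ => [] : K → List A), 0) ∈ Cf K A Bd := by
      rw [hz]; exact hmem
    have hmem0 : (((fun _ => [] : K → List A), 0) : (K → List A) × ℕ) ∈ Cf K A Bd :=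
      ⟨fun k => by simp, Nat.zero_le _⟩
    intro h0
    have h1 := congrFun (congrFun h0 none) (some ⟨_, hmem0⟩)
    have h2 := Fw_apply Bd (wl ks z0) _ hmem0 hmem'
    simp only [Mf, h2, Option.bind_some, F, Fs] at h1
    rw [if_pos] at h1
    · exact one_ne_zero h1
    · rw [if_pos]
      rw [hz]; exact hacc

end Pool.Agent.Helper91.SG
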