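import Pool.Agent.Helper91.SG.Defs

namespace Pool.Agent.Helper91.SG

/-! ### Helper lemmas (helper37) -/

lemma m4_avoid : ∀ a b c : Fin 4, ∃ m : Fin 4, m ≠ a ∧ m ≠ b ∧ m ≠ c := by decide

lemma m4_succ_ne : ∀ k : Fin 4, k + 1 ≠ k := by decide

lemma m4_cmt_commute {G : Type*} [Group G] {a b x : G} (ha : Commute a x) (hb : Commute b x) :
    Commute (cmt a b) x := by
  unfold cmt
  exact ((ha.mul_left hb).mul_left ha.inv_left).mul_left hb.inv_left

lemma m4_cmt_eq {G : Type*} [Group G] {g h k : G} (H : g * h = k * (h * g)) : cmt g h = k := by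
  unfold cmt
  rw [H]
  group

lemma m4_commute_of {G : Type*} [Group G] {g h : G} (H : g * h = 1 * (h * g)) : Commute g h := by
  rw [one_mul] at H
  exact H

/-- the associativity of commutators in the situation we need -/
lemma m4_assoc {G : Type*} [Group G] {A B C : G} (hAC : Commute A C)
    (hED : Commute (cmt A B) (cmt B C)) (hCD : Commute C (cmt B C)) :
    cmt (cmt A B) C = cmt A (cmt B C) := by
  set E := cmt A B with hE
  set D := cmt B C with hD
  set K := cmt E C with hK
  have e1 : A * B = E * (B * A) := by rw [hE]; unfold cmt; group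
  have e2 : B * C = D * (C * B) := by rw [hD]; unfold cmt; group
  have e3 : E * C = K * (C * E) := by rw [hK]; unfold cmt; group
  have hKD : Commute K D := m4_cmt_commute hED hCD
  have h1 : A * D * (C * B) = D * K * A * (C * B) := by
    calc A * D * (C * B) = A * (D * (C * B)) := by group
      _ = A * (B * C) := by rw [e2]
      _ = (A * B) * C := by group
      _ = E * B * (A * C) := by rw [e1]; group
      _ = E * B * (C * A) := by rw [hAC.eq]
      _ = E * (B * C) * A := by group
      _ = E * (D * (C * B)) * A := by rw [e2]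
      _ = (E * D) * C * B * A := by group
      _ = (D * E) * C * B * A := by rw [hED.eq]
      _ = D * (E * C) * B * A := by group
      _ = D * (K * (C * E)) * B * A := by rw [e3]
      _ = D * K * C * (E * (B * A)) := by group
      _ = D * K * C * (A * B) := by rw [e1]
      _ = D * K * (C * A) * B := by group
      _ = D * K * (A * C) * B := by rw [hAC.eq]
      _ = D * K * A * (C * B) := by group
  have h2 : A * D = D * K * A := mul_right_cancel h1
  have h3 : cmt A D = D * K * D⁻¹ := by
    unfold cmt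
    rw [h2]
    group
  rw [h3, ← hKD.eq]
  group

section

variable {L : Type} {B : L → L → L → Prop} {z : L} {G : Type*} [Group G] {F : GVar L → G}

/-- the iterated commutator of a (reversed) word, with last index `k` -/
def m4V (F : GVar L → G) : List L → Fin 4 → G
  | [], j => F (.Y j)
  | s :: w, k => cmt (m4V F w (k + 1)) (F (.X (k + 1) k s))

lemma m4_X_comm (hF : GSol B z F) (i j k l : Fin 4) (s s' : L) (h1 : i ≠ j) (h2 : k ≠ l)
    (h3 : j ≠ k) (h4 : i ≠ l) : Commute (F (.X i j s)) (F (.X k l s')) := by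
  apply m4_commute_of
  rw [← hF.1]
  exact hF.2 _ _ _ (CRel.st0 i j k l s s' h1 h2 h3 h4)

lemma m4_X2 (hF : GSol B z F) (i j k : Fin 4) (s s' : L) (h1 : i ≠ j) (h2 : j ≠ k)
    (h3 : i ≠ k) : cmt (F (.X i j s)) (F (.X j k s')) = F (.X2 i k s s') :=
  m4_cmt_eq (hF.2 _ _ _ (CRel.st1 i j k s s' h1 h2 h3))

lemma m4_rule (hF : GSol B z F) (i j k : Fin 4) (r s s' : L) (h : B r s s') (h1 : i ≠ j)
    (h2 : j ≠ k) (h3 : i ≠ k) : cmt (F (.X i j s)) (F (.X j k s')) = F (.X i k r) :=
  m4_cmt_eq (hF.2 _ _ _ (CRel.rule i j k r s s' h h1 h2 h3))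

lemma m4_zero (hF : GSol B z F) (i j : Fin 4) (h : i ≠ j) : F (.X i j z) = 1 := by
  have := hF.2 _ _ _ (CRel.zero (B := B) (z := z) i j h)
  rw [hF.1] at this
  simpa using this.symm

lemma m4_Y_comm (hF : GSol B z F) (j i k : Fin 4) (s : L) (h1 : i ≠ k) (h2 : i ≠ j) :
    Commute (F (.Y j)) (F (.X i k s)) := by
  apply m4_commute_of
  rw [← hF.1]
  exact hF.2 _ _ _ (CRel.y0 j i k s h1 h2)

lemma m4_Y1 (hF : GSol B z F) (j k : Fin 4) (s : L) (h : j ≠ k) :
    cmt (F (.Y j)) (F (.X j k s)) = F (.Y1 k s) :=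
  m4_cmt_eq (hF.2 _ _ _ (CRel.y1 j k s h))

/-- the key step -/
lemma m4_step (hF : GSol B z F) (w : List L) (r : L)
    (CL' : ∀ (j i k : Fin 4) (s : L), i ≠ j → i ≠ k → Commute (m4V F w j) (F (.X i k s)))
    (IND' : ∀ (j k : Fin 4) (s : L), j ≠ k → m4V F (s :: w) k = cmt (m4V F w j) (F (.X j k s)))
    (CL : ∀ (j i k : Fin 4) (s : L), i ≠ j → i ≠ k →
      Commute (m4V F (r :: w) j) (F (.X i k s)))
    (i k m : Fin 4) (s : L) (hik : i ≠ k) (hmi : m ≠ i) (hmk : m ≠ k) :
    cmt (m4V F (r :: w) i) (F (.X i k s)) = cmt (m4V F w m) (F (.X2 m k r s)) := by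
  obtain ⟨p, hpm, hpk, hpi⟩ := m4_avoid m k i
  have hE : m4V F (r :: w) i = cmt (m4V F w m) (F (.X m i r)) := IND' m i r hmi
  have hD : cmt (F (.X m i r)) (F (.X i k s)) = F (.X2 m k r s) :=
    m4_X2 hF m i k r s hmi hik hmk
  have hD' : cmt (F (.X m p r)) (F (.X p k s)) = F (.X2 m k r s) :=
    m4_X2 hF m p k r s hpm.symm hpk hmk
  have hED : Commute (m4V F (r :: w) i) (F (.X2 m k r s)) := by
    rw [← hD']
    exact (m4_cmt_commute (CL i m p r hmi hpm.symm).symm (CL i p k s hpi hpk).symm).symm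
  have hCD : Commute (F (.X i k s)) (F (.X2 m k r s)) := by
    rw [← hD']
    refine (m4_cmt_commute ?_ ?_).symm
    · exact m4_X_comm hF m p i k r s hpm.symm hik hpi hmk
    · exact m4_X_comm hF p k i k s s hpk hik hik.symm hpk
  rw [← hD, hE]
  apply m4_assoc
  · exact CL' m i k s hmi.symm hik
  · rw [← hE, hD]
    exact hED
  · rw [hD]
    exact hCD

lemma m4_main (hF : GSol B z F) (w : List L) :
    (∀ (j i k : Fin 4) (s : L), i ≠ j → i ≠ k → Commute (m4V F w j) (F (.X i k s))) ∧
    (∀ (j k : Fin 4) (s : L), j ≠ k → m4V F (s :: w) k = cmt (m4V F w j) (F (.X j k s))) := by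
  induction w with
  | nil =>
    refine ⟨fun j i k s h1 h2 => m4_Y_comm hF j i k s h2 h1, fun j k s h => ?_⟩
    change cmt (F (.Y (k + 1))) (F (.X (k + 1) k s)) = cmt (F (.Y j)) (F (.X j k s))
    rw [m4_Y1 hF _ _ _ (m4_succ_ne k), m4_Y1 hF _ _ _ h]
  | cons r w ih =>
    obtain ⟨CL', IND'⟩ := ih
    have CL : ∀ (j i k : Fin 4) (s : L), i ≠ j → i ≠ k →
        Commute (m4V F (r :: w) j) (F (.X i k s)) := by
      intro k i l s hik hil
      obtain ⟨j, hjk, hji, hjl⟩ := m4_avoid k i l
      rw [IND' j k r hjk]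
      apply m4_cmt_commute
      · exact CL' j i l s hji.symm hil
      · exact m4_X_comm hF j k i l r s hjk hil hik.symm hjl
    refine ⟨CL, fun j k s hjk => ?_⟩
    change cmt (m4V F (r :: w) (k + 1)) (F (.X (k + 1) k s)) =
      cmt (m4V F (r :: w) j) (F (.X j k s))
    obtain ⟨m, hm1, hm2, hm3⟩ := m4_avoid (k + 1) j k
    rw [m4_step hF w r CL' IND' CL (k + 1) k m s (m4_succ_ne k) hm1 hm3,
      m4_step hF w r CL' IND' CL j k m s hjk hm2 hm3]

/-- two letters at once -/
lemma m4_two (hF : GSol B z F) (w : List L) (r s : L) (m k : Fin 4) (hmk : m ≠ k) :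
    m4V F (s :: r :: w) k = cmt (m4V F w m) (F (.X2 m k r s)) := by
  obtain ⟨i, him, hik, _⟩ := m4_avoid m k k
  rw [(m4_main hF (r :: w)).2 i k s hik]
  exact m4_step hF w r (m4_main hF w).1 (m4_main hF w).2 (m4_main hF (r :: w)).1 i k m s hik
    him.symm hmk

lemma m4_rule_eq (hF : GSol B z F) (w : List L) (r s s' : L) (h : B r s s') :
    m4V F (r :: w) = m4V F (s' :: s :: w) := by
  funext k
  obtain ⟨m, hmk, _, _⟩ := m4_avoid k k k
  obtain ⟨p, hpm, hpk, _⟩ := m4_avoid m k k
  rw [m4_two hF w s s' m k hmk, (m4_main hF w).2 m k r hmk,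
    ← m4_rule hF m p k r s s' h hpm.symm hpk hmk, m4_X2 hF m p k s s' hpm.symm hpk hmk]

lemma m4_congr (x w w' : List L) (h : m4V F w = m4V F w') :
    m4V F (x ++ w) = m4V F (x ++ w') := by
  induction x with
  | nil => exact h
  | cons a x ih =>
    funext k
    simp only [List.cons_append, m4V, ih]

lemma m4_rw_eq (hF : GSol B z F) {w w' : List L} (h : Rw B w w') :
    m4V F w.reverse = m4V F w'.reverse := by
  obtain ⟨u, v, r, s, s', h⟩ := h
  simp only [List.reverse_append, List.reverse_cons, List.append_assoc,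
    List.cons_append, List.nil_append]
  exact m4_congr _ _ _ (m4_rule_eq hF _ r s s' h)

lemma m4_eqv (hF : GSol B z F) {w w' : List L} (h : Relation.EqvGen (Rw B) w w') :
    m4V F w.reverse = m4V F w'.reverse := by
  induction h with
  | rel _ _ h => exact m4_rw_eq hF h
  | refl => rfl
  | symm _ _ _ ih => exact ih.symm
  | trans _ _ _ _ _ ih1 ih2 => exact ih1.trans ih2

lemma m4_zero_word (hF : GSol B z F) (w : List L) (hz : z ∈ w) (k : Fin 4) :
    m4V F w k = 1 := by
  induction w generalizing k with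
  | nil => simp at hz
  | cons a w ih =>
    rw [List.mem_cons] at hz
    rcases hz with rfl | hz
    · simp only [m4V, m4_zero hF _ _ (m4_succ_ne k), cmt]
      group
    · simp only [m4V, ih hz, cmt]
      group

lemma m4_chain (hF : GSol B z F) (w : List L) : ∀ (p : Bool) (w0 : List L),
    ∃ k : Fin 4, chain F p (m4V F w0 (if p then 1 else 0)) w = m4V F (w.reverse ++ w0) k := by
  induction w with
  | nil =>
    intro p w0
    exact ⟨_, rfl⟩
  | cons s w ih =>
    intro p w0
    cases p with
    | false =>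
      obtain ⟨k, hk⟩ := ih true (s :: w0)
      refine ⟨k, ?_⟩
      have h1 := (m4_main hF w0).2 0 1 s (by decide)
      simp only [if_true] at hk
      simp only [Bool.false_eq_true, if_false, chain]
      rw [← h1, hk]
      simp
    | true =>
      obtain ⟨k, hk⟩ := ih false (s :: w0)
      refine ⟨k, ?_⟩
      have h1 := (m4_main hF w0).2 1 0 s (by decide)
      simp only [Bool.false_eq_true, if_false] at hk
      simp only [if_true, chain]
      rw [← h1, hk]
      simp

end

/-- Bad direction: in every group, every solution of the commutator relations has trivial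
iterated commutator along each word equivalent to a word containing the zero letter. -/
theorem grp_bad {L : Type} (B : L → L → L → Prop) (z : L) {G : Type*} [Group G]
    (F : GVar L → G) (hF : GSol B z F) (w w' : List L)
    (h : Relation.EqvGen (Rw B) w w') (hz : z ∈ w') :
    chain F false (F (.Y 0)) w = 1 := by
  obtain ⟨k, hk⟩ := m4_chain hF w false []
  simp only [Bool.false_eq_true, if_false, List.append_nil] at hk
  have h1 : m4V F [] 0 = F (.Y 0) := rfl
  rw [h1] at hk
  rw [hk, m4_eqv hF h]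
  exact m4_zero_word hF _ (by simpa using hz) k

end Pool.Agent.Helper91.SG
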