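import Pool.Agent.Helper91.SG.Defs

namespace Pool.Agent.Helper91.SG

section m5

variable {n : Type} [DecidableEq n] [Fintype n] {R : Type} [Ring R]

theorem m5_inv1 {i j : n} (h : i ≠ j) (a : R) :
    (1 + Matrix.single i j a) * (1 - Matrix.single i j a) = 1 := by
  rw [mul_sub, add_mul, add_mul, Matrix.single_mul_single_of_ne _ _ _ _ h.symm]
  simp

theorem m5_inv2 {i j : n} (h : i ≠ j) (a : R) :
    (1 - Matrix.single i j a) * (1 + Matrix.single i j a) = 1 := by
  rw [mul_add, sub_mul, sub_mul, Matrix.single_mul_single_of_ne _ _ _ _ h.symm]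
  simp

/-- The elementary matrix `1 + E i j a` as a unit (`1` if `i = j`). -/
def m5_el (i j : n) (a : R) : (Matrix n n R)ˣ :=
  if h : i = j then 1 else
    ⟨1 + Matrix.single i j a, 1 - Matrix.single i j a, m5_inv1 h a, m5_inv2 h a⟩

theorem m5_el_val {i j : n} (h : i ≠ j) (a : R) :
    ((m5_el i j a : (Matrix n n R)ˣ) : Matrix n n R) = 1 + Matrix.single i j a := by
  simp [m5_el, h]

theorem m5_el_zero (i j : n) : (m5_el i j (0 : R)) = 1 := by
  by_cases h : i = j
  · simp [m5_el, h]
  · apply Units.ext
    rw [m5_el_val h]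
    simp

theorem m5_el_ne_one {i j : n} (h : i ≠ j) {a : R} (ha : a ≠ 0) : m5_el i j a ≠ 1 := by
  intro h1
  have h2 := congrArg (fun u : (Matrix n n R)ˣ => (u : Matrix n n R) i j) h1
  simp only [m5_el_val h, Units.val_one, Matrix.add_apply, Matrix.one_apply_ne h,
    Matrix.single_apply_same, zero_add] at h2
  exact ha h2

theorem m5_comm {i j k l : n} (hij : i ≠ j) (hkl : k ≠ l) (hjk : j ≠ k) (hil : i ≠ l) (a b : R) :
    m5_el i j a * m5_el k l b = m5_el k l b * m5_el i j a := by
  apply Units.ext
  rw [Units.val_mul, Units.val_mul, m5_el_val hij, m5_el_val hkl]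
  simp only [mul_add, add_mul, mul_one, one_mul, Matrix.single_mul_single_of_ne _ _ _ _ hjk,
    Matrix.single_mul_single_of_ne _ _ _ _ hil.symm, add_zero]
  abel

theorem m5_rel {i j k : n} (hij : i ≠ j) (hjk : j ≠ k) (hik : i ≠ k) (a b : R) :
    m5_el i j a * m5_el j k b = m5_el i k (a * b) * (m5_el j k b * m5_el i j a) := by
  apply Units.ext
  rw [Units.val_mul, Units.val_mul, Units.val_mul, m5_el_val hij, m5_el_val hjk, m5_el_val hik]
  simp only [mul_add, add_mul, mul_one, one_mul, Matrix.single_mul_single_same,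
    Matrix.single_mul_single_of_ne _ _ _ _ hik.symm, Matrix.single_mul_single_of_ne _ _ _ _ hjk.symm,
    add_zero]
  abel

theorem m5_cmt {i j k : n} (hij : i ≠ j) (hjk : j ≠ k) (hik : i ≠ k) (a b : R) :
    cmt (m5_el i j a) (m5_el j k b) = m5_el i k (a * b) := by
  have h := m5_rel hij hjk hik a b
  unfold cmt
  rw [h]
  group

end m5

/-- The assignment of elementary matrices to the variables. -/
def m5_F {L : Type} {R : Type} [Ring R] (ρ : L → R) :
    GVar L → (Matrix (Option (Fin 4)) (Option (Fin 4)) R)ˣ
  | .one => 1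
  | .Y j => m5_el none (some j) 1
  | .Y1 k s => m5_el none (some k) (ρ s)
  | .X i j s => m5_el (some i) (some j) (ρ s)
  | .X2 i k s s' => m5_el (some i) (some k) (ρ s * ρ s')

theorem m5_chain {L : Type} {R : Type} [Ring R] (ρ : L → R) (w : List L) :
    ∀ (c : R), c * (w.map ρ).prod ≠ 0 →
      chain (m5_F ρ) false (m5_el none (some 0) c) w ≠ 1 ∧
      chain (m5_F ρ) true (m5_el none (some 1) c) w ≠ 1 := by
  induction w with
  | nil =>
    intro c hc
    simp only [List.map_nil, List.prod_nil, mul_one] at hc
    exact ⟨m5_el_ne_one (by simp) hc, m5_el_ne_one (by simp) hc⟩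
  | cons s w ih =>
    intro c hc
    have hc' : (c * ρ s) * (w.map ρ).prod ≠ 0 := by
      simpa [mul_assoc] using hc
    obtain ⟨h0, h1⟩ := ih _ hc'
    constructor
    · simp only [chain, m5_F]
      rw [m5_cmt (by simp) (by simp) (by simp)]
      exact h1
    · simp only [chain, m5_F]
      rw [m5_cmt (by simp) (by simp) (by simp)]
      exact h0

/-- Good direction: a finite ring model gives a finite group solution of the commutator relations
with nontrivial iterated commutators along the words with nonzero value. -/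
theorem grp_good {L : Type} (B : L → L → L → Prop) (z : L) (R : Type) [Ring R] [Finite R]
    (ρ : L → R) (hB : ∀ r s s', B r s s' → ρ r = ρ s * ρ s') (hz : ρ z = 0) :
    ∃ (Γ : Type) (_ : Group Γ) (_ : Finite Γ) (F : GVar L → Γ), GSol B z F ∧
      ∀ w : List L, (w.map ρ).prod ≠ 0 → chain F false (F (.Y 0)) w ≠ 1 := by
  have hfin : Finite (Matrix (Option (Fin 4)) (Option (Fin 4)) R)ˣ := by
    have : Finite (Matrix (Option (Fin 4)) (Option (Fin 4)) R) := by
      unfold Matrix; infer_instance
    infer_instance
  refine ⟨(Matrix (Option (Fin 4)) (Option (Fin 4)) R)ˣ, inferInstance, hfin, m5_F ρ, ⟨rfl, ?_⟩, ?_⟩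
  · intro g h k hr
    cases hr with
    | st0 i j k l s s' h1 h2 h3 h4 =>
      simp only [m5_F, one_mul]
      exact m5_comm (by simpa using h1) (by simpa using h2) (by simpa using h3)
        (by simpa using h4) _ _
    | st1 i j k s s' h1 h2 h3 =>
      simp only [m5_F]
      exact m5_rel (by simpa using h1) (by simpa using h2) (by simpa using h3) _ _
    | rule i j k r s s' h h1 h2 h3 =>
      simp only [m5_F]
      rw [hB r s s' h]
      exact m5_rel (by simpa using h1) (by simpa using h2) (by simpa using h3) _ _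
    | zero i j h =>
      simp only [m5_F, hz, m5_el_zero, mul_one]
    | y0 j i k s h1 h2 =>
      simp only [m5_F, one_mul]
      exact m5_comm (by simp) (by simpa using h1) (by simpa using h2.symm) (by simp) _ _
    | y1 j k s h =>
      simp only [m5_F]
      have h5 := m5_rel (n := Option (Fin 4)) (i := none) (j := some j) (k := some k) (by simp)
        (by simpa using h) (by simp) (1 : R) (ρ s)
      rwa [one_mul] at h5
  · intro w hw
    exact (m5_chain ρ w 1 (by simpa using hw)).1

end Pool.Agent.Helper91.SG
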