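import Pool.Agent.Helper91.SG.M1
import Pool.Agent.Helper91.SG.M2
import Pool.Agent.Helper91.SG.M3
import Pool.Agent.Helper91.SG.M4
import Pool.Agent.Helper91.SG.M5

namespace Pool.Agent.Helper91.SG

universe u

/-! ### Numbering of the variables -/

instance finite_GVar (L : Type) [Finite L] : Finite (GVar L) := by
  refine Finite.of_injective
    (β := Unit ⊕ Fin 4 ⊕ (Fin 4 × L) ⊕ (Fin 4 × Fin 4 × L) ⊕ (Fin 4 × Fin 4 × L × L))
    (fun v => match v with
      | .one => .inl ()
      | .Y j => .inr (.inl j)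
      | .Y1 j s => .inr (.inr (.inl (j, s)))
      | .X i j s => .inr (.inr (.inr (.inl (i, j, s))))
      | .X2 i j s s' => .inr (.inr (.inr (.inr (i, j, s, s'))))) ?_
  intro x y hxy
  cases x <;> cases y <;> simp_all

instance finite_Letter (Q K A : Type) [Finite Q] [Finite K] [Finite A] :
    Finite (Letter Q K A) := by
  refine Finite.of_injective
    (β := Q ⊕ Option (K × A) ⊕ Q ⊕ (Q × K × A) ⊕ (Option (K × A) × Option (K × A)))
    (fun v => match v with
      | .st q => .inl q
      | .lt x => .inr (.inl x)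
      | .pu q => .inr (.inr (.inl q))
      | .pp q k a => .inr (.inr (.inr (.inl (q, k, a))))
      | .cm x y => .inr (.inr (.inr (.inr (x, y))))) ?_
  intro x y hxy
  cases x <;> cases y <;> simp_all

lemma exists_num (V : Type) [Finite V] (o : V) :
    ∃ (M0 : ℕ) (num : V → ℕ), Function.Injective num ∧ num o = 0 ∧ ∀ v, num v < M0 := by
  classical
  obtain ⟨n, ⟨e⟩⟩ := Finite.exists_equiv_fin V
  refine ⟨n + 1, fun v => if v = o then 0 else (e v : ℕ) + 1, ?_, by simp, ?_⟩
  · intro x y hxy
    by_cases hx : x = o <;> by_cases hy : y = o <;> simp_all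
    exact e.injective (Fin.ext hxy)
  · intro v
    by_cases hv : v = o
    · simp [hv]
    · simp [hv]

/-! ### The chain -/

/-- The triples for one commutator: variables `c` (current), `x`, `c + 1 = c x`, `c + 2 = x c`,
`c + 3 = [c, x]`. -/
def block (x c : ℕ) : List (ℕ × ℕ × ℕ) := [(c, x, c + 1), (x, c, c + 2), (c + 3, c + 2, c + 1)]

/-- The triples of an iterated commutator. -/
def chainR {L : Type} (ξ : Bool → L → ℕ) : Bool → ℕ → List L → List (ℕ × ℕ × ℕ)
  | _, _, [] => []
  | p, c, s :: w => block (ξ p s) c ++ chainR ξ (!p) (c + 3) w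

lemma chainR_append {L : Type} (ξ : Bool → L → ℕ) (u v : List L) : ∀ (p : Bool) (c : ℕ),
    chainR ξ p c (u ++ v) =
      chainR ξ p c u ++ chainR ξ (xor p (Nat.bodd u.length)) (c + 3 * u.length) v := by
  induction u with
  | nil => intro p c; simp [chainR]
  | cons s w ih =>
    intro p c
    simp only [List.cons_append, chainR, ih, List.append_assoc, List.length_cons]
    congr 3
    · simp [Nat.bodd_succ]
    · ring

lemma chainR_replicate {L : Type} (ξ : Bool → L → ℕ) (s : L) (p : Bool) (c n : ℕ) :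
    chainR ξ p c (List.replicate n s) =
      (List.range n).flatMap fun l => block (ξ (xor p (Nat.bodd l)) s) (c + 3 * l) := by
  induction n with
  | zero => simp [chainR]
  | succ n ih =>
    rw [List.replicate_succ', chainR_append, ih, List.range_succ, List.flatMap_append]
    simp [chainR]

lemma chainR_bound {L : Type} (ξ : Bool → L → ℕ) (M0 : ℕ) (hξ : ∀ p s, ξ p s < M0) (w : List L) :
    ∀ (p : Bool) (c : ℕ), M0 ≤ c → ∀ t ∈ chainR ξ p c w,
      t.1 < c + 3 * w.length + 1 ∧ t.2.1 < c + 3 * w.length + 1 ∧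
      t.2.2 < c + 3 * w.length + 1 := by
  induction w with
  | nil => intro p c _ t ht; simp [chainR] at ht
  | cons s w ih =>
    intro p c hc t ht
    have h1 := hξ p s
    simp only [chainR, List.mem_append, block, List.mem_cons, List.not_mem_nil, or_false] at ht
    simp only [List.length_cons]
    rcases ht with (rfl | rfl | rfl) | ht
    · simp only; omega
    · simp only; omega
    · simp only; omega
    · have := ih (!p) (c + 3) (by omega) t ht
      omega

/-! ### Semantics of the chain -/

lemma chain_of_sol {L : Type} {G : Type*} [Group G] (F : GVar L → G) (ξ : Bool → L → ℕ)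
    (f : ℕ → G) (h0 : ∀ s, f (ξ false s) = F (.X 0 1 s)) (h1 : ∀ s, f (ξ true s) = F (.X 1 0 s))
    (w : List L) : ∀ (p : Bool) (c : ℕ),
      (∀ t ∈ chainR ξ p c w, f t.1 * f t.2.1 = f t.2.2) →
      f (c + 3 * w.length) = chain F p (f c) w := by
  induction w with
  | nil => intro p c _; cases p <;> simp [chain]
  | cons s w ih =>
    intro p c h
    simp only [chainR, List.mem_append, block, List.mem_cons, List.not_mem_nil, or_false] at h
    have e1 := h _ (Or.inl (Or.inl rfl))
    have e2 := h _ (Or.inl (Or.inr (Or.inl rfl)))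
    have e3 := h _ (Or.inl (Or.inr (Or.inr rfl)))
    have e4 := ih (!p) (c + 3) (fun t ht => h t (Or.inr ht))
    simp only at e1 e2 e3
    have e5 : f (c + 3) = cmt (f c) (f (ξ p s)) := by
      rw [← e1, ← e2] at e3
      unfold cmt
      have : f (c + 3) = f c * f (ξ p s) * (f (ξ p s) * f c)⁻¹ := by
        rw [← e3]; group
      rw [this]; group
    have e6 : c + 3 * (s :: w).length = c + 3 + 3 * w.length := by
      simp only [List.length_cons]; ring
    rw [e6, e4, e5]
    cases p
    · simp [chain, h0]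
    · simp [chain, h1]

lemma exists_chain_sol {L : Type} {G : Type*} [Group G] (ξ : Bool → L → ℕ) (M0 : ℕ)
    (hξ : ∀ p s, ξ p s < M0) (w : List L) : ∀ (p : Bool) (c : ℕ) (f : ℕ → G), M0 ≤ c →
      ∃ f' : ℕ → G, (∀ i ≤ c, f' i = f i) ∧
        ∀ t ∈ chainR ξ p c w, f' t.1 * f' t.2.1 = f' t.2.2 := by
  induction w with
  | nil => intro p c f _; exact ⟨f, fun _ _ => rfl, by simp [chainR]⟩
  | cons s w ih =>
    intro p c f hc
    have h1 := hξ p s
    let g : ℕ → G := fun i => if i ≤ c then f i else
      if i = c + 1 then f c * f (ξ p s) else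
      if i = c + 2 then f (ξ p s) * f c else cmt (f c) (f (ξ p s))
    obtain ⟨f', hf', hf''⟩ := ih (!p) (c + 3) g (by omega)
    have g0 : f' c = f c := by rw [hf' c (by omega)]; simp [g]
    have gx : f' (ξ p s) = f (ξ p s) := by
      rw [hf' _ (by omega)]; simp only [g]; rw [if_pos (by omega)]
    have g1 : f' (c + 1) = f c * f (ξ p s) := by
      rw [hf' _ (by omega)]; simp [g]
    have g2 : f' (c + 2) = f (ξ p s) * f c := by
      rw [hf' _ (by omega)]; simp [g]
    have g3 : f' (c + 3) = cmt (f c) (f (ξ p s)) := by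
      rw [hf' _ (by omega)]; simp [g]
    refine ⟨f', fun i hi => ?_, ?_⟩
    · rw [hf' i (by omega)]; simp only [g]; rw [if_pos hi]
    · intro t ht
      simp only [chainR, List.mem_append, block, List.mem_cons, List.not_mem_nil, or_false] at ht
      rcases ht with (rfl | rfl | rfl) | ht
      · simp only; rw [g0, gx, g1]
      · simp only; rw [g0, gx, g2]
      · simp only; rw [g1, g2, g3]; unfold cmt; group
      · exact hf'' t ht

/-! ### The fixed part -/

section Fixed

variable {L : Type} [Finite L] (B : L → L → L → Prop) (z : L)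

/-- The fixed triples: products of all pairs of variables, and the commutator relations. -/
def fixedSet (num : GVar L ⊕ GVar L × GVar L → ℕ) : Set (ℕ × ℕ × ℕ) :=
  {t | (∃ g h, t = (num (.inl g), num (.inl h), num (.inr (g, h)))) ∨
    ∃ g h k, CRel B z g h k ∧ t = (num (.inl k), num (.inr (h, g)), num (.inr (g, h)))}

lemma fixedSet_finite (num : GVar L ⊕ GVar L × GVar L → ℕ) : (fixedSet B z num).Finite := by
  refine Set.Finite.subset
    ((Set.finite_range fun x : (GVar L × GVar L) =>
      (num (.inl x.1), num (.inl x.2), num (.inr (x.1, x.2)))).union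
    (Set.finite_range fun x : (GVar L × GVar L × GVar L) =>
      (num (.inl x.2.2), num (.inr (x.2.1, x.1)), num (.inr (x.1, x.2.1))))) ?_
  rintro t (⟨g, h, rfl⟩ | ⟨g, h, k, _, rfl⟩)
  · exact Or.inl ⟨(g, h), rfl⟩
  · exact Or.inr ⟨(g, h, k), rfl⟩

/-- The list of the fixed triples. -/
noncomputable def fixedList (num : GVar L ⊕ GVar L × GVar L → ℕ) : List (ℕ × ℕ × ℕ) :=
  (fixedSet_finite B z num).toFinset.toList

lemma mem_fixedList (num : GVar L ⊕ GVar L × GVar L → ℕ) (t : ℕ × ℕ × ℕ) :
    t ∈ fixedList B z num ↔ t ∈ fixedSet B z num := by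
  simp [fixedList]

/-- The variable number of `X 0 1 s` or `X 1 0 s`. -/
def xi (num : GVar L ⊕ GVar L × GVar L → ℕ) : Bool → L → ℕ
  | false, s => num (.inl (.X 0 1 s))
  | true, s => num (.inl (.X 1 0 s))

/-- The whole system of a word. -/
noncomputable def sysR (num : GVar L ⊕ GVar L × GVar L → ℕ) (M0 : ℕ) (w : List L) :
    List (ℕ × ℕ × ℕ) :=
  fixedList B z num ++ (num (.inl (.Y 0)), 0, M0) :: chainR (xi num) false M0 w

lemma sysR_sol {num : GVar L ⊕ GVar L × GVar L → ℕ} (hnum0 : num (.inl .one) = 0)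
    {M0 : ℕ} (w : List L) {G : Type*} [Group G] (f : ℕ → G)
    (hf : IsSol (sysR B z num M0 w) f) :
    ∃ F : GVar L → G, GSol B z F ∧ f (M0 + 3 * w.length) = chain F false (F (.Y 0)) w := by
  obtain ⟨h0, h⟩ := hf
  simp only [sysR, List.mem_append, List.mem_cons] at h
  refine ⟨fun v => f (num (.inl v)), ⟨by simp only [hnum0, h0], ?_⟩, ?_⟩
  · intro g h' k hr
    have e1 := h (num (.inl g), num (.inl h'), num (.inr (g, h')))
      (Or.inl ((mem_fixedList B z num _).2 (Or.inl ⟨g, h', rfl⟩)))
    have e2 := h (num (.inl h'), num (.inl g), num (.inr (h', g)))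
      (Or.inl ((mem_fixedList B z num _).2 (Or.inl ⟨h', g, rfl⟩)))
    have e3 := h (num (.inl k), num (.inr (h', g)), num (.inr (g, h')))
      (Or.inl ((mem_fixedList B z num _).2 (Or.inr ⟨g, h', k, hr, rfl⟩)))
    simp only at e1 e2 e3 ⊢
    rw [e1, e2, e3]
  · have e1 := h (num (.inl (.Y 0)), 0, M0) (Or.inr (Or.inl rfl))
    simp only [h0, mul_one] at e1
    rw [chain_of_sol (fun v => f (num (.inl v))) (xi num) f (fun s => rfl) (fun s => rfl) w false M0
      (fun t ht => h t (Or.inr (Or.inr ht)))]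
    simp only [e1]

lemma sysR_exists {num : GVar L ⊕ GVar L × GVar L → ℕ} (hnum : Function.Injective num)
    (hnum0 : num (.inl .one) = 0) {M0 : ℕ} (hM0 : ∀ v, num v < M0) (w : List L) {G : Type*}
    [Group G] (F : GVar L → G) (hF : GSol B z F) :
    ∃ f : ℕ → G, IsSol (sysR B z num M0 w) f ∧
      f (M0 + 3 * w.length) = chain F false (F (.Y 0)) w := by
  let F' : GVar L ⊕ GVar L × GVar L → G := fun v => match v with
    | .inl g => F g
    | .inr (g, h) => F g * F h
  let f0 : ℕ → G := fun i => if i < M0 then Function.extend num F' (fun _ => 1) i else F (.Y 0)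
  have hf0 : ∀ v, f0 (num v) = F' v := by
    intro v
    simp only [f0]
    rw [if_pos (hM0 v), hnum.extend_apply]
  have hf0M : f0 M0 = F (.Y 0) := by simp [f0]
  obtain ⟨f, h1, h2⟩ := exists_chain_sol (xi num) M0
    (by intro p s; cases p <;> exact hM0 _) w false M0 f0 le_rfl
  have hf : ∀ v, f (num v) = F' v := fun v => by rw [h1 _ (hM0 v).le, hf0]
  have hfM : f M0 = F (.Y 0) := by rw [h1 _ le_rfl, hf0M]
  have hfz : f 0 = 1 := by
    rw [← hnum0, hf]; exact hF.1
  refine ⟨f, ⟨hfz, ?_⟩, ?_⟩
  · intro t ht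
    simp only [sysR, List.mem_append, List.mem_cons] at ht
    rcases ht with ht | rfl | ht
    · rcases (mem_fixedList B z num _).1 ht with ⟨g, h, rfl⟩ | ⟨g, h, k, hr, rfl⟩
      · simp only [hf, F']
      · simp only [hf, F']
        exact (hF.2 g h k hr).symm
    · simp only [hfz, mul_one, hfM, hf, F']
    · exact h2 t ht
  · rw [chain_of_sol F (xi num) f (fun s => hf _) (fun s => hf _) w false M0 h2, hfM]

lemma sysR_bound {num : GVar L ⊕ GVar L × GVar L → ℕ} {M0 : ℕ} (hM0 : ∀ v, num v < M0)
    (w : List L) : ∀ t ∈ sysR B z num M0 w, t.1 < M0 + 3 * w.length + 1 ∧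
      t.2.1 < M0 + 3 * w.length + 1 ∧ t.2.2 < M0 + 3 * w.length + 1 := by
  intro t ht
  simp only [sysR, List.mem_append, List.mem_cons] at ht
  rcases ht with ht | rfl | ht
  · rcases (mem_fixedList B z num _).1 ht with ⟨g, h, rfl⟩ | ⟨g, h, k, hr, rfl⟩
    · have a1 := hM0 (.inl g)
      have a2 := hM0 (.inl h)
      have a3 := hM0 (.inr (g, h))
      simp only; omega
    · have a1 := hM0 (.inl k)
      have a2 := hM0 (.inr (h, g))
      have a3 := hM0 (.inr (g, h))
      simp only; omega
  · have a1 := hM0 (.inl (.Y 0))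
    simp only; omega
  · exact chainR_bound (xi num) M0 (by intro p s; cases p <;> exact hM0 _) w false M0 le_rfl t ht

end Fixed

/-! ### Computability of the chain -/

lemma primrec_block {α : Type*} [Primcodable α] {x c : α → ℕ} (hx : Primrec x) (hc : Primrec c) :
    Primrec fun a => block (x a) (c a) := by
  have h1 : Primrec fun a => c a + 1 := Primrec.nat_add.comp hc (Primrec.const 1)
  have h2 : Primrec fun a => c a + 2 := Primrec.nat_add.comp hc (Primrec.const 2)
  have h3 : Primrec fun a => c a + 3 := Primrec.nat_add.comp hc (Primrec.const 3)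
  exact Primrec.list_cons.comp (Primrec.pair hc (Primrec.pair hx h1))
    (Primrec.list_cons.comp (Primrec.pair hx (Primrec.pair hc h2))
      (Primrec.list_cons.comp (Primrec.pair h3 (Primrec.pair h2 h1)) (Primrec.const [])))

lemma primrec_chainR {L : Type} (ξ : Bool → L → ℕ) (w : List L) {α : Type*} [Primcodable α] :
    ∀ (p : α → Bool) (c : α → ℕ), Primrec p → Primrec c →
      Primrec fun a => chainR ξ (p a) (c a) w := by
  induction w with
  | nil => intro p c _ _; exact Primrec.const []
  | cons s w ih =>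
    intro p c hp hc
    have hs : Primrec fun b : Bool => ξ b s := Primrec.dom_finite _
    exact Primrec.list_append.comp (primrec_block (hs.comp hp) hc)
      (ih _ _ (Primrec.not.comp hp) (Primrec.nat_add.comp hc (Primrec.const 3)))

lemma primrec_chainR_replicate {L : Type} (ξ : Bool → L → ℕ) (s : L) (p : Bool) (c : ℕ) :
    Primrec fun n => chainR ξ p c (List.replicate n s) := by
  simp only [chainR_replicate]
  have hs : Primrec fun b : Bool => ξ b s := Primrec.dom_finite _
  have hx : Primrec fun b : Bool => xor p b := Primrec.dom_finite _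
  refine Primrec.list_flatMap Primrec.list_range ?_
  refine (primrec_block (α := ℕ × ℕ) (x := fun a => ξ (xor p (Nat.bodd a.2)) s)
    (c := fun a => c + 3 * a.2) ?_ ?_).to₂
  · exact hs.comp (hx.comp (Primrec.nat_bodd.comp Primrec.snd))
  · exact Primrec.nat_add.comp (Primrec.const c)
      (Primrec.nat_mul.comp (Primrec.const 3) Primrec.snd)

lemma primrec_chainR_word {L : Type} (ξ : Bool → L → ℕ) (q s : L) (suf : List L) (M0 : ℕ) :
    Primrec fun n => chainR ξ false M0 (q :: (List.replicate n s ++ suf)) := by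
  simp only [chainR, chainR_append, List.length_replicate]
  refine Primrec.list_append.comp (Primrec.const _) (Primrec.list_append.comp
    (primrec_chainR_replicate ξ s _ _) ?_)
  refine primrec_chainR ξ suf _ _ ?_ ?_
  · have hx : Primrec fun b : Bool => xor (!false) b := Primrec.dom_finite _
    exact hx.comp Primrec.nat_bodd
  · exact Primrec.nat_add.comp (Primrec.const _)
      (Primrec.nat_mul.comp (Primrec.const 3) Primrec.id)

/-! ### The systems -/

theorem exists_systems :
    ∃ (R : ℕ → List (ℕ × ℕ × ℕ)) (N tgt : ℕ → ℕ),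
      Computable R ∧ Computable N ∧ Computable tgt ∧
      (∀ n, 0 < N n ∧ tgt n < N n ∧ ∀ t ∈ R n, t.1 < N n ∧ t.2.1 < N n ∧ t.2.2 < N n) ∧
      ∀ D : ℕ → Prop, ComputablePred D → ∃ n,
        (¬ D n ∧ ∃ (Γ : Type) (_ : Group Γ) (_ : Finite Γ) (f : ℕ → Γ),
          IsSol (R n) f ∧ f (tgt n) ≠ 1) ∨
        (D n ∧ ∀ (H : Type u) (_ : Group H) (f : ℕ → H), IsSol (R n) f → f (tgt n) = 1) := by
  obtain ⟨Q, hQ, δ, q0, qrej, hrej, hins⟩ := exists_machine
  have hK : Finite Turing.PartrecToTM2.K' := by
    refine Finite.of_surjective (fun i : Fin 4 => match i with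
      | 0 => Turing.PartrecToTM2.K'.main
      | 1 => Turing.PartrecToTM2.K'.rev
      | 2 => Turing.PartrecToTM2.K'.aux
      | 3 => Turing.PartrecToTM2.K'.stack) ?_
    intro k
    cases k
    exacts [⟨0, rfl⟩, ⟨1, rfl⟩, ⟨2, rfl⟩, ⟨3, rfl⟩]
  obtain ⟨M0, num, hnum, hnum0, hM0⟩ :=
    exists_num (GVar (Letter Q Turing.PartrecToTM2.K' (Option Turing.PartrecToTM2.Γ')) ⊕
      GVar (Letter Q Turing.PartrecToTM2.K' (Option Turing.PartrecToTM2.Γ')) ×
      GVar (Letter Q Turing.PartrecToTM2.K' (Option Turing.PartrecToTM2.Γ'))) (.inl .one)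
  let ks : List Turing.PartrecToTM2.K' := [.main, .rev, .aux, .stack]
  have hks : ks.Nodup := by decide
  have hall : ∀ k, k ∈ ks := by intro k; cases k <;> decide
  let w : ℕ → List (Letter Q Turing.PartrecToTM2.K' (Option Turing.PartrecToTM2.Γ')) :=
    fun n => Letter.st q0 :: word ks (inpStk n)
  let suf : List (Letter Q Turing.PartrecToTM2.K' (Option Turing.PartrecToTM2.Γ')) :=
    [.lt (some (.main, some .cons)), .lt (some (.main, none)), .lt (some (.rev, none)),
      .lt (some (.aux, none)), .lt (some (.stack, none))]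
  have hw : ∀ n, w n = Letter.st q0 ::
      (List.replicate n (.lt (some (.main, some .bit1))) ++ suf) := by
    intro n
    simp [w, word, ks, inpStk, suf]
  have hlen : ∀ n, (w n).length = n + 6 := by
    intro n
    simp [hw, suf]
  refine ⟨fun n => sysR (Rule δ) (.st qrej) num M0 (w n), fun n => M0 + 3 * (w n).length + 1,
    fun n => M0 + 3 * (w n).length, ?_, ?_, ?_, ?_, ?_⟩
  · refine Primrec.to_comp ?_
    simp only [sysR, hw]
    exact Primrec.list_append.comp (Primrec.const _)
      (Primrec.list_cons.comp (Primrec.const _) (primrec_chainR_word _ _ _ _ _))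
  · refine Primrec.to_comp ?_
    simp only [hlen]
    exact Primrec.nat_add.comp (Primrec.nat_add.comp (Primrec.const _)
      (Primrec.nat_mul.comp (Primrec.const 3) (Primrec.nat_add.comp Primrec.id
      (Primrec.const 6)))) (Primrec.const 1)
  · refine Primrec.to_comp ?_
    simp only [hlen]
    exact Primrec.nat_add.comp (Primrec.const _)
      (Primrec.nat_mul.comp (Primrec.const 3) (Primrec.nat_add.comp Primrec.id
      (Primrec.const 6)))
  · intro n
    refine ⟨by simp only; omega, by simp only; omega, ?_⟩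
    exact sysR_bound (Rule δ) (.st qrej) hM0 (w n)
  · intro D hD
    obtain ⟨n, hn⟩ := hins D hD
    refine ⟨n, ?_⟩
    rcases hn with ⟨h1, c, hc1, hc2, hc3⟩ | ⟨h1, c, hc1, hc2⟩
    · left
      refine ⟨h1, ?_⟩
      obtain ⟨R, iR, iF, ρ, hρ1, hρ2, hρ3⟩ :=
        sg_good δ ks hks hall q0 qrej hrej (inpStk n) c hc1 hc2 hc3
      obtain ⟨Γ, iG, iGF, F, hF1, hF2⟩ := grp_good (Rule δ) (.st qrej) R ρ hρ1 hρ2
      obtain ⟨f, hf1, hf2⟩ := sysR_exists (Rule δ) (.st qrej) hnum hnum0 hM0 (w n) F hF1
      exact ⟨Γ, iG, iGF, f, hf1, by rw [hf2]; exact hF2 (w n) hρ3⟩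
    · right
      refine ⟨h1, ?_⟩
      intro H iH f hf
      obtain ⟨F, hF1, hF2⟩ := sysR_sol (Rule δ) (.st qrej) hnum0 (w n) f hf
      rw [hF2]
      obtain ⟨cq, cz⟩ := c
      obtain ⟨w', hw'⟩ := sg_bad δ ks hks hall q0 cq (inpStk n) cz hc1
      simp only at hc2
      subst hc2
      exact grp_bad (Rule δ) (.st cq) F hF1 (w n) _ hw' (by simp)

end Pool.Agent.Helper91.SG
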